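import Pool.Agent.H514.MX.M3
import Pool.Agent.H514.KS.Fin
import Pool.Graph.R_pool_sql_team_seeded_f72693b1.W307.IM.Main
import Pool.Graph.R_pool_sql_team_seeded_f72693b1.W430.IM.FAMI

/-! The lower bound of the moments over the family. -/

set_option autoImplicit false

namespace Pool.Agent.H514.MX

open Finset Filter Pool.Agent.W262.RK Pool.Agent.W307.RT Pool.Agent.W307.IM

lemma pow_bd {C0 T : ℕ} (hC : 0 < C0) (hT : 4 * C0 + 12 ≤ T) : C0 * (T + 1) ^ 6 ≤ T ^ 7 := by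
  have b1 : (T + 1) ^ 6 ≤ 2 * T ^ 6 := by
    have hTT : 12 ≤ T := by omega
    have hr : (12 * (T + 1)) ^ 6 ≤ (13 * T) ^ 6 := Nat.pow_le_pow_left (by omega) 6
    rw [mul_pow, mul_pow] at hr
    have h3 : (13 : ℕ) ^ 6 ≤ 2 * 12 ^ 6 := by norm_num
    have h4 : 12 ^ 6 * (T + 1) ^ 6 ≤ 12 ^ 6 * (2 * T ^ 6) := by
      calc 12 ^ 6 * (T + 1) ^ 6 ≤ 13 ^ 6 * T ^ 6 := hr
        _ ≤ (2 * 12 ^ 6) * T ^ 6 := Nat.mul_le_mul_right _ h3
        _ = 12 ^ 6 * (2 * T ^ 6) := by ring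
    exact Nat.le_of_mul_le_mul_left h4 (by positivity)
  calc C0 * (T + 1) ^ 6 ≤ C0 * (2 * T ^ 6) := Nat.mul_le_mul_left _ b1
    _ = T ^ 6 * (2 * C0) := by ring
    _ ≤ T ^ 6 * T := Nat.mul_le_mul_left _ (by omega)
    _ = T ^ 7 := by ring

lemma real_cmp {e C c' ε : ℝ} (hc' : 0 < c') (hε : 0 < ε) :
    ∀ᶠ x : ℝ in atTop, ∀ y, x ≤ y → y ≤ 7 * x →
      y ^ (e - ε) ≤ c' * (x ^ e / (Real.log x) ^ C) := by
  have hlo : ∀ᶠ x : ℝ in atTop, (Real.log x) ^ |C| ≤ c' / (7 : ℝ) ^ |e - ε| * x ^ ε := by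
    have h1 := (isLittleO_log_rpow_rpow_atTop |C| hε).def
      (show (0 : ℝ) < c' / (7 : ℝ) ^ |e - ε| by positivity)
    filter_upwards [h1, eventually_ge_atTop (1 : ℝ)] with x hx hx1
    have hl : 0 ≤ Real.log x := Real.log_nonneg hx1
    rw [Real.norm_of_nonneg (Real.rpow_nonneg hl _),
      Real.norm_of_nonneg (Real.rpow_nonneg (by linarith) _)] at hx
    exact hx
  have hl1 : ∀ᶠ x : ℝ in atTop, 1 ≤ Real.log x :=
    Real.tendsto_log_atTop.eventually_ge_atTop 1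
  filter_upwards [hlo, hl1, eventually_gt_atTop (1 : ℝ)] with x h1 h2 h3 y hxy hyx
  have hx0 : 0 < x := by linarith
  have hy0 : 0 < y := by linarith
  have hL : 0 < Real.log x := by linarith
  -- the power of `y`
  have h4 : y ^ (e - ε) ≤ (7 : ℝ) ^ |e - ε| * x ^ (e - ε) := by
    rcases le_total 0 (e - ε) with h | h
    · rw [abs_of_nonneg h, ← Real.mul_rpow (by norm_num) hx0.le]
      exact Real.rpow_le_rpow hy0.le hyx h
    · have a1 : y ^ (e - ε) ≤ x ^ (e - ε) := Real.rpow_le_rpow_of_nonpos hx0 hxy h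
      have a2 : (1 : ℝ) ≤ (7 : ℝ) ^ |e - ε| := Real.one_le_rpow (by norm_num) (abs_nonneg _)
      have a3 : 0 ≤ x ^ (e - ε) := Real.rpow_nonneg hx0.le _
      nlinarith
  have h5 : (Real.log x) ^ C ≤ (Real.log x) ^ |C| :=
    Real.rpow_le_rpow_of_exponent_le h2 (le_abs_self C)
  have h6 : 0 < (Real.log x) ^ C := Real.rpow_pos_of_pos hL _
  have h7 : (0 : ℝ) < (7 : ℝ) ^ |e - ε| := by positivity
  refine h4.trans ?_
  rw [mul_div_assoc', le_div_iff₀ h6]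
  have h8 : x ^ e = x ^ (e - ε) * x ^ ε := by
    rw [← Real.rpow_add hx0]
    congr 1
    ring
  rw [h8]
  have h9 : 0 ≤ x ^ (e - ε) := Real.rpow_nonneg hx0.le _
  calc (7 : ℝ) ^ |e - ε| * x ^ (e - ε) * (Real.log x) ^ C
      ≤ (7 : ℝ) ^ |e - ε| * x ^ (e - ε) * (c' / (7 : ℝ) ^ |e - ε| * x ^ ε) :=
        mul_le_mul_of_nonneg_left (h5.trans h1) (by positivity)
    _ = c' * (x ^ (e - ε) * x ^ ε) := by
        field_simp

lemma roots_ex (c : ℤ × ℤ) (h1 : 4 * c.1 ^ 3 + 27 * c.2 ^ 2 ≠ 0) (h2 : HasT 2 (Sh c.1 c.2)) :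
    ∃ e1 e2 e3 : ℤ, ∀ x : ℤ, x ^ 3 + c.1 * x + c.2 = (x - e1) * (x - e2) * (x - e3) := by
  obtain ⟨ab, hr⟩ : ∃ ab, Pool.Agent.H514.Rel2 c ab := Pool.Agent.H514.core2 (A := c.1) (B := c.2) h1 h2
  obtain ⟨e1, e2, -, -, -, -, hA, hB⟩ := hr
  refine ⟨e1, e2, -e1 - e2, fun x => ?_⟩
  rw [hA, hB]
  ring

/-- the lower bound over the family -/
theorem low_gen (hana : ANAX) {f : ℤ × ℤ → ℝ} (hf0 : ∀ c, 0 ≤ f c) {K : ℝ}
    (hf : ∀ T : ℕ, ∀ t ∈ Pr T, (2 : ℝ) ^ (((Pool.Agent.W307.IM.S2 t.1 t.2).card : ℝ) - (Pool.Agent.W307.IM.T2 t.1 t.2).card - K) ≤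
      f (cA t.1 t.2, cB t.1 t.2)) {s ε : ℝ} (hs : 0 < s) (hε : 0 < ε) :
    ∀ᶠ H : ℕ in atTop, (Real.log H) ^ (ex s - ε) * (Cv 2 H).card ≤ ∑ c ∈ Cv 2 H, f c ^ s := by
  classical
  obtain ⟨C, T0, hT0⟩ := hana s hs
  obtain ⟨C0, hC0⟩ : ∃ C0 : ℕ, C0 = 2000000 := ⟨_, rfl⟩
  have hC0p : 0 < C0 := by omega
  set c' : ℝ := (1 / 2) * (2 : ℝ) ^ (-(K * s)) / 2809 with hc'
  have hc'0 : 0 < c' := by positivity
  have hroots := Pool.Agent.H514.MX.roots_ex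
  have hx := (Real.tendsto_log_atTop.comp tendsto_natCast_atTop_atTop).eventually
    (real_cmp (e := ex s) (C := C) hc'0 hε)
  obtain ⟨T1, hT1⟩ := eventually_atTop.1 hx
  set Tm : ℕ := max (max T0 T1) (4 * C0 + 12) with hTm
  filter_upwards [eventually_ge_atTop (C0 * (Tm + 1) ^ 6)] with H hH
  obtain ⟨T, hT2, hT3, hT4⟩ : ∃ T : ℕ, Tm ≤ T ∧ C0 * T ^ 6 ≤ H ∧ H ≤ C0 * (T + 1) ^ 6 := by
    have hle : Tm + 1 ≤ H := by
      calc Tm + 1 ≤ (Tm + 1) ^ 6 := Nat.le_self_pow (by norm_num) _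
        _ ≤ C0 * (Tm + 1) ^ 6 := Nat.le_mul_of_pos_left _ hC0p
        _ ≤ H := hH
    refine ⟨Nat.findGreatest (fun T => C0 * T ^ 6 ≤ H) H, ?_, ?_, ?_⟩
    · exact (Nat.le_succ Tm).trans (Nat.le_findGreatest hle hH)
    · exact Nat.findGreatest_spec (P := fun T => C0 * T ^ 6 ≤ H) hle hH
    · by_contra hcon
      push Not at hcon
      have h1 : C0 * (Nat.findGreatest (fun T => C0 * T ^ 6 ≤ H) H + 1) ^ 6 ≤ H := hcon.le
      have h2 : Nat.findGreatest (fun T => C0 * T ^ 6 ≤ H) H + 1 ≤ H := by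
        calc Nat.findGreatest (fun T => C0 * T ^ 6 ≤ H) H + 1 ≤
            (Nat.findGreatest (fun T => C0 * T ^ 6 ≤ H) H + 1) ^ 6 :=
              Nat.le_self_pow (by norm_num) _
          _ ≤ C0 * (Nat.findGreatest (fun T => C0 * T ^ 6 ≤ H) H + 1) ^ 6 :=
            Nat.le_mul_of_pos_left _ hC0p
          _ ≤ H := h1
      have h3 := Nat.le_findGreatest (P := fun T => C0 * T ^ 6 ≤ H) h2 h1
      omega
  have hTT0 : T0 ≤ T := ((le_max_left _ _).trans (le_max_left _ _)).trans hT2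
  have hTT1 : T1 ≤ T := ((le_max_right _ _).trans (le_max_left _ _)).trans hT2
  have hTC : 4 * C0 + 12 ≤ T := (le_max_right _ _).trans hT2
  have hT1' : 1 ≤ T := by omega
  have hcard := Pool.Agent.W430.IM.FAMI.card_le hroots hT1' (hC0 ▸ hT4)
  have hsum := Pool.Agent.W430.IM.FAMI.sum_pairs (hC0 ▸ hT3) (fun c => f c ^ s)
    (fun c => Real.rpow_nonneg (hf0 c) s)
  have hMS : (2 : ℝ) ^ (-(K * s)) * MS s T ≤ ∑ t ∈ Pr T, f (cA t.1 t.2, cB t.1 t.2) ^ s := by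
    unfold MS
    rw [mul_sum]
    refine sum_le_sum fun t ht => ?_
    have h1 := hf T t ht
    have h2 := Real.rpow_le_rpow (Real.rpow_nonneg (by norm_num) _) h1 hs.le
    refine le_trans (le_of_eq ?_) h2
    rw [← Real.rpow_add (by norm_num), ← Real.rpow_mul (by norm_num)]
    congr 1
    ring
  have hA := hT0 T hTT0
  have hTpos : (0 : ℝ) < T := by exact_mod_cast hT1'
  -- the logarithms
  have hlog1 : Real.log T ≤ Real.log H := by
    apply Real.log_le_log hTpos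
    have : T ≤ H := by
      calc T ≤ T ^ 6 := Nat.le_self_pow (by norm_num) _
        _ ≤ C0 * T ^ 6 := Nat.le_mul_of_pos_left _ hC0p
        _ ≤ H := hT3
    exact_mod_cast this
  have hlog2 : Real.log H ≤ 7 * Real.log T := by
    have h1 : H ≤ T ^ 7 := hT4.trans (pow_bd (by omega) hTC)
    have hH0 : (0 : ℝ) < H := by
      have : 0 < H := by
        have : 0 < C0 * T ^ 6 := by positivity
        omega
      exact_mod_cast this
    have h2 : (H : ℝ) ≤ (T : ℝ) ^ 7 := by exact_mod_cast h1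
    have h3 := Real.log_le_log hH0 h2
    rw [Real.log_pow] at h3
    exact_mod_cast h3
  have hcmp : (Real.log H) ^ (ex s - ε) ≤
      c' * ((Real.log T) ^ (ex s) / (Real.log (Real.log T)) ^ C) :=
    hT1 T hTT1 _ hlog1 hlog2
  have hcard0 : (0 : ℝ) ≤ (Cv 2 H).card := Nat.cast_nonneg _
  set X : ℝ := (Real.log T) ^ (ex s) / (Real.log (Real.log T)) ^ C with hX
  have hA' : (T : ℝ) ^ 2 * X ≤ MS s T := by
    rw [hX, mul_div_assoc']
    exact hA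
  have hX0 : 0 ≤ c' * X := le_trans (Real.rpow_nonneg
    ((Real.log_nonneg (by exact_mod_cast hT1')).trans hlog1) _) hcmp
  calc (Real.log H) ^ (ex s - ε) * (Cv 2 H).card
      ≤ c' * X * (2809 * (T : ℝ) ^ 2) :=
        mul_le_mul hcmp hcard hcard0 hX0
    _ = (1 / 2) * ((2 : ℝ) ^ (-(K * s)) * ((T : ℝ) ^ 2 * X)) := by
        rw [hc']
        ring
    _ ≤ (1 / 2) * ((2 : ℝ) ^ (-(K * s)) * MS s T) := by
        have : (0 : ℝ) ≤ (2 : ℝ) ^ (-(K * s)) := by positivity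
        nlinarith [mul_le_mul_of_nonneg_left hA' this]
    _ ≤ (1 / 2) * ∑ t ∈ Pr T, f (cA t.1 t.2, cB t.1 t.2) ^ s := by linarith
    _ ≤ _ := hsum

end Pool.Agent.H514.MX
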