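import Pool.Graph.R_pool_sql_team_seeded_f72693b1.W307.IM.Stm
import Pool.Graph.R_pool_sql_team_seeded_f72693b1.W430.IM.ZLOW
import Pool.Graph.R_pool_sql_team_seeded_f72693b1.W81.IM.BAD

/-!
MX-1 (AELO), project of helper514; this part by helper289.
-/

set_option autoImplicit false

namespace Pool.Agent.H514.MX

open Finset Filter Pool.Agent.W262.RK Pool.Agent.W307.RT Pool.Agent.W307.IM
open Pool.Agent.W81.IM (cz_sq_le cz_zero)
open Pool.Agent.W430.IM.ZLOW (cz_nonneg me_mem)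

namespace Aelo

lemma Jr_mul_left (a b : ℤ) (n : ℕ) : Jr (a * b) n = Jr a n * Jr b n := by
  unfold Jr
  rw [jacobiSym.mul_left]
  push_cast
  rfl

lemma Jr_prod (a : ℤ) (t : Finset ℕ) (ht : ∀ p ∈ t, p.Prime) :
    Jr a (∏ p ∈ t, p) = ∏ p ∈ t, Jr a p := by
  induction t using Finset.induction_on with
  | empty =>
    rw [Finset.prod_empty, Finset.prod_empty]
    unfold Jr
    rw [jacobiSym.one_right]
    norm_num
  | insert p t hp ih =>
    have ht' : ∀ q ∈ t, q.Prime := fun q hq => ht q (Finset.mem_insert_of_mem hq)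
    rw [Finset.prod_insert hp, Finset.prod_insert hp, ← ih ht']
    unfold Jr
    rw [jacobiSym.mul_right' a (ht p (Finset.mem_insert_self p t)).ne_zero
      (Finset.prod_ne_zero_iff.2 fun q hq => (ht' q hq).ne_zero)]
    push_cast
    rfl

lemma Jr_abs (a : ℤ) (n : ℕ) : |Jr a n| ≤ 1 := by
  unfold Jr
  rcases jacobiSym.trichotomy a n with h | h | h <;> rw [h] <;> norm_num

lemma fac_mem (a : ℤ) (n : ℕ) : 0 ≤ (1 + Jr a n) / 2 ∧ (1 + Jr a n) / 2 ≤ 1 := by
  have h := abs_le.1 (Jr_abs a n)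
  constructor <;> linarith [h.1, h.2]

open Classical in
/-- the pointwise inequality -/
lemma point {w e : ℕ} (hw : 5 ≤ w) (he : e ≠ 0) (hp : ∀ p : ℕ, p.Prime → p ∣ e → w < p) (l : ℕ) :
    ∏ p ∈ e.primeFactors, (1 + Jr (3 * (l : ℤ)) p) / 2 ≤
      (if ∀ p : ℕ, p.Prime → p ∣ e → jacobiSym (3 * (l : ℤ)) p = 1 then 1 else 0) +
        ∑ p ∈ e.primeFactors, (if p ∣ l then (1 : ℝ) else 0) := by
  have hn : ∀ p ∈ e.primeFactors, (0 : ℝ) ≤ (if p ∣ l then (1 : ℝ) else 0) := by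
    intro p _
    split_ifs <;> norm_num
  have hle : ∏ p ∈ e.primeFactors, (1 + Jr (3 * (l : ℤ)) p) / 2 ≤ 1 :=
    Finset.prod_le_one (fun p _ => (fac_mem _ _).1) fun p _ => (fac_mem _ _).2
  have hs : (0 : ℝ) ≤ ∑ p ∈ e.primeFactors, (if p ∣ l then (1 : ℝ) else 0) :=
    Finset.sum_nonneg hn
  by_cases h : ∀ p : ℕ, p.Prime → p ∣ e → jacobiSym (3 * (l : ℤ)) p = 1
  · rw [if_pos h]
    linarith
  · rw [if_neg h, zero_add]
    push Not at h
    obtain ⟨p, hpp, hpe, hne⟩ := h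
    have hmem : p ∈ e.primeFactors := Nat.mem_primeFactors.2 ⟨hpp, hpe, he⟩
    rcases jacobiSym.trichotomy (3 * (l : ℤ)) p with h0 | h0 | h0
    · have hdl : p ∣ l := by
        have : NeZero p := ⟨hpp.ne_zero⟩
        rw [jacobiSym.eq_zero_iff_not_coprime] at h0
        have h1 : ¬ Nat.Coprime (3 * l) p := by
          intro h2
          apply h0
          have h3 : (3 * (l : ℤ)) = ((3 * l : ℕ) : ℤ) := by push_cast; ring
          rw [h3]
          exact h2
        have h2 : p ∣ 3 * l := by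
          by_contra h3
          exact h1 (Nat.coprime_comm.1 ((Nat.Prime.coprime_iff_not_dvd hpp).2 h3))
        rcases (Nat.Prime.dvd_mul hpp).1 h2 with h3 | h3
        · have h4 := Nat.le_of_dvd (by norm_num) h3
          have h5 := hp p hpp hpe
          omega
        · exact h3
      have h1 : (1 : ℝ) ≤ ∑ p ∈ e.primeFactors, (if p ∣ l then (1 : ℝ) else 0) := by
        have h2 := Finset.single_le_sum hn hmem
        rw [if_pos hdl] at h2
        exact h2
      linarith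
    · exact absurd h0 hne
    · have h1 : ∏ p ∈ e.primeFactors, (1 + Jr (3 * (l : ℤ)) p) / 2 = 0 := by
        refine Finset.prod_eq_zero hmem ?_
        unfold Jr
        rw [h0]
        norm_num
      rw [h1]
      exact hs

lemma cz_le_one {z : ℝ} (hz : 0 < z) (hz1 : z < 1) (w l : ℕ) : cz z w l ≤ 1 := by
  have h1 := cz_sq_le z hz hz1 w l
  have h2 := cz_nonneg hz w l
  nlinarith

lemma mult_sum {z : ℝ} (hz : 0 < z) (hz1 : z < 1) {w T p : ℕ} :
    ∑ l ∈ range (T + 1), cz z w l * (if p ∣ l then (1 : ℝ) else 0) ≤ (T : ℝ) / p := by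
  have h1 : ∑ l ∈ range (T + 1), cz z w l * (if p ∣ l then (1 : ℝ) else 0) ≤
      ∑ l ∈ Ioc 0 T, (if p ∣ l then (1 : ℝ) else 0) := by
    have e1 : range (T + 1) = insert 0 (Ioc 0 T) := by
      ext l
      rw [mem_range, mem_insert, mem_Ioc]
      omega
    rw [e1, sum_insert (by simp), cz_zero, zero_mul, zero_add]
    refine sum_le_sum fun l _ => ?_
    split_ifs
    · rw [mul_one]
      exact cz_le_one hz hz1 w l
    · rw [mul_zero]
  refine h1.trans ?_
  rw [← sum_filter, sum_const, nsmul_eq_mul, mul_one, Nat.Ioc_filter_dvd_card_eq_div]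
  exact Nat.cast_div_le

/-- the main inequality -/
lemma main {z : ℝ} (hz : 0 < z) (hz1 : z < 1) {w T e : ℕ} {lam : ℝ} (hw : 5 ≤ w) (he : e ≠ 0)
    (hp : ∀ p : ℕ, p.Prime → p ∣ e → w < p) (hlam : 0 ≤ lam)
    (hb : ∀ f ∈ e.divisors, f ≠ 1 → |GG z w T f| ≤ lam * T) :
    GG z w T 1 / 2 ^ e.primeFactors.card - lam * T - e.primeFactors.card * ((T : ℝ) / w) ≤
      AE z w T e := by
  classical
  obtain ⟨s, hs⟩ : ∃ s, s = e.primeFactors := ⟨_, rfl⟩
  have hsp : ∀ p ∈ s, p.Prime := fun p h => by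
    rw [hs] at h
    exact Nat.prime_of_mem_primeFactors h
  have hT0 : (0 : ℝ) ≤ T := Nat.cast_nonneg T
  -- from AE to the products
  have h1 : ∑ l ∈ range (T + 1), cz z w l * ∏ p ∈ e.primeFactors, (1 + Jr (3 * (l : ℤ)) p) / 2 ≤
      AE z w T e + ∑ p ∈ e.primeFactors, ∑ l ∈ range (T + 1),
        cz z w l * (if p ∣ l then (1 : ℝ) else 0) := by
    rw [sum_comm]
    unfold AE
    rw [sum_filter, ← sum_add_distrib]
    refine sum_le_sum fun l _ => ?_
    have h2 := mul_le_mul_of_nonneg_left (point hw he hp l) (cz_nonneg hz w l)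
    rw [mul_add, mul_sum, mul_ite, mul_one, mul_zero] at h2
    exact h2
  have h2 : ∑ p ∈ e.primeFactors, ∑ l ∈ range (T + 1),
        cz z w l * (if p ∣ l then (1 : ℝ) else 0) ≤ e.primeFactors.card * ((T : ℝ) / w) := by
    rw [← nsmul_eq_mul, ← sum_const]
    refine sum_le_sum fun p hpm => ?_
    obtain ⟨q1, q2, q3⟩ := Nat.mem_primeFactors.1 hpm
    refine (mult_sum hz hz1).trans ?_
    have h3 := hp p q1 q2
    have h4 : (w : ℝ) ≤ p := by exact_mod_cast h3.le
    have h5 : (0 : ℝ) < w := by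
      have : 0 < w := by omega
      exact_mod_cast this
    exact div_le_div_of_nonneg_left hT0 h5 h4
  -- expansion
  have h3 : ∀ l : ℕ, ∏ p ∈ s, (1 + Jr (3 * (l : ℤ)) p) / 2 =
      (1 / 2 ^ s.card) * ∑ t ∈ s.powerset, Jr 3 (∏ p ∈ t, p) * Jr (l : ℤ) (∏ p ∈ t, p) := by
    intro l
    rw [prod_div_distrib, prod_const, prod_one_add, div_eq_mul_one_div, mul_comm]
    congr 1
    refine sum_congr rfl fun t ht => ?_
    rw [← Jr_mul_left, Jr_prod]
    exact fun p hpt => hsp p (mem_powerset.1 ht hpt)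
  have h4 : ∑ l ∈ range (T + 1), cz z w l * ∏ p ∈ s, (1 + Jr (3 * (l : ℤ)) p) / 2 =
      (1 / 2 ^ s.card) * ∑ t ∈ s.powerset, Jr 3 (∏ p ∈ t, p) * GG z w T (∏ p ∈ t, p) := by
    simp_rw [h3]
    unfold GG
    simp_rw [mul_sum]
    rw [sum_comm]
    refine sum_congr rfl fun t _ => sum_congr rfl fun l _ => ?_
    ring
  have h5 : GG z w T 1 - 2 ^ s.card * (lam * T) ≤
      ∑ t ∈ s.powerset, Jr 3 (∏ p ∈ t, p) * GG z w T (∏ p ∈ t, p) := by
    rw [← add_sum_erase s.powerset _ (empty_mem_powerset s), prod_empty, Jr_one', one_mul]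
    have h6 : ∀ t ∈ s.powerset.erase ∅, -(lam * T) ≤
        Jr 3 (∏ p ∈ t, p) * GG z w T (∏ p ∈ t, p) := by
      intro t ht
      obtain ⟨t1, t2⟩ := mem_erase.1 ht
      have t3 := mem_powerset.1 t2
      obtain ⟨p, hpt⟩ := nonempty_iff_ne_empty.2 t1
      have t4 : ∏ p ∈ t, p ≠ 1 := by
        intro h
        have h7 : p ∣ 1 := h ▸ dvd_prod_of_mem (fun p => p) hpt
        exact (hsp p (t3 hpt)).one_lt.ne' (Nat.dvd_one.1 h7)
      have t5 : ∏ p ∈ t, p ∈ e.divisors := by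
        rw [Nat.mem_divisors]
        refine ⟨(prod_dvd_prod_of_subset t s (fun p => p) t3).trans ?_, he⟩
        rw [hs]
        exact Nat.prod_primeFactors_dvd e
      have t6 := hb _ t5 t4
      have t7 : |Jr 3 (∏ p ∈ t, p) * GG z w T (∏ p ∈ t, p)| ≤ lam * T := by
        rw [abs_mul]
        calc |Jr 3 (∏ p ∈ t, p)| * |GG z w T (∏ p ∈ t, p)| ≤ 1 * |GG z w T (∏ p ∈ t, p)| :=
              mul_le_mul_of_nonneg_right (Jr_abs _ _) (abs_nonneg _)
          _ ≤ lam * T := by rw [one_mul]; exact t6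
      exact (abs_le.1 t7).1
    have h7 := sum_le_sum h6
    rw [sum_const, card_erase_of_mem (empty_mem_powerset s), card_powerset, nsmul_eq_mul] at h7
    have h8 : ((2 ^ s.card - 1 : ℕ) : ℝ) ≤ 2 ^ s.card := by
      have : (2 ^ s.card - 1 : ℕ) ≤ 2 ^ s.card := Nat.sub_le _ _
      exact_mod_cast this
    have h9 : 0 ≤ lam * T := mul_nonneg hlam hT0
    have h10 : ((2 ^ s.card - 1 : ℕ) : ℝ) * (lam * T) ≤ 2 ^ s.card * (lam * T) :=
      mul_le_mul_of_nonneg_right h8 h9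
    linarith
  rw [← hs] at h1 h2 ⊢
  rw [h4] at h1
  have h6 : (0 : ℝ) < 2 ^ s.card := by positivity
  have h7 : GG z w T 1 / 2 ^ s.card - lam * T ≤
      (1 / 2 ^ s.card) * ∑ t ∈ s.powerset, Jr 3 (∏ p ∈ t, p) * GG z w T (∏ p ∈ t, p) := by
    have h8 := mul_le_mul_of_nonneg_left h5 (show (0 : ℝ) ≤ 1 / 2 ^ s.card by positivity)
    refine le_trans (le_of_eq ?_) h8
    field_simp
  linarith
where
  Jr_one' : Jr 3 1 = 1 := by
    unfold Jr
    rw [jacobiSym.one_right]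
    norm_num

end Aelo

open Aelo in
theorem aelo (hz : ZLOW) : AELO := by
  intro z K0 hz0 hz1
  refine ⟨K0 + 3, fun B hB => ⟨K0 + 4, fun A hA => ?_⟩⟩
  obtain ⟨C, T0, hC⟩ := hz z A hz0 hz1
  -- conditions on `L = log T`
  have c1 : ∀ᶠ L : ℝ in atTop, Real.log L ^ C ≤ L := by
    have h1 := (isLittleO_log_rpow_rpow_atTop C (show (0 : ℝ) < 1 by norm_num)).def
      (show (0 : ℝ) < 1 by norm_num)
    filter_upwards [h1, eventually_ge_atTop 0] with L hL hL0
    rw [one_mul, Real.rpow_one, Real.norm_eq_abs, Real.norm_eq_abs, abs_of_nonneg hL0] at hL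
    exact (le_abs_self _).trans hL
  have c2 : ∀ᶠ L : ℝ in atTop, 8 * (K0 * Real.log L + 1) ≤ L ^ 2 := by
    have h1 := (Real.isLittleO_log_id_atTop).def (show (0 : ℝ) < 1 by norm_num)
    filter_upwards [h1, eventually_ge_atTop (8 * (K0 : ℝ) + 8)] with L hL hL0
    have hk : (0 : ℝ) ≤ K0 := Nat.cast_nonneg _
    rw [one_mul, id, Real.norm_eq_abs, Real.norm_eq_abs, abs_of_nonneg (by linarith : (0:ℝ) ≤ L)] at hL
    have h2 : Real.log L ≤ L := (le_abs_self _).trans hL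
    have h3 : (K0 : ℝ) * Real.log L ≤ K0 * L := mul_le_mul_of_nonneg_left h2 hk
    nlinarith
  have c3 : ∀ᶠ L : ℝ in atTop, 8 ≤ L := eventually_ge_atTop 8
  have hlog : Tendsto (fun T : ℕ => Real.log (T : ℝ)) atTop atTop :=
    Real.tendsto_log_atTop.comp tendsto_natCast_atTop_atTop
  obtain ⟨T1, hT1⟩ := eventually_atTop.1 (hlog.eventually (c1.and (c2.and c3)))
  refine ⟨max T0 (max T1 1), fun T hT e he hbad => ?_⟩
  have hTa : T0 ≤ T := (le_max_left _ _).trans hT
  have hTb : T1 ≤ T := ((le_max_left _ _).trans (le_max_right _ _)).trans hT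
  have hTc : 1 ≤ T := ((le_max_right _ _).trans (le_max_right _ _)).trans hT
  obtain ⟨d1, d2, d3⟩ := hT1 T hTb
  obtain ⟨L, hL⟩ : ∃ L, L = Real.log T := ⟨_, rfl⟩
  have hCT := hC T hTa
  rw [← hL] at d1 d2 d3 hCT
  have hL0 : 0 < L := by linarith
  have hTr : (1 : ℝ) ≤ T := by exact_mod_cast hTc
  have hTp : (0 : ℝ) < T := by linarith
  obtain ⟨m1, m2, -⟩ := me_mem hTc he
  have hcard : e.primeFactors.card ≤ kT K0 T := by
    unfold ME at he
    exact (mem_filter.1 he).2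
  have hlogL : 0 < Real.log L := Real.log_pos (by linarith)
  -- number of prime factors
  have hk1 : (e.primeFactors.card : ℝ) ≤ K0 * Real.log L + 1 := by
    have h1 : (e.primeFactors.card : ℝ) ≤ (kT K0 T : ℝ) := by exact_mod_cast hcard
    refine h1.trans ?_
    unfold kT
    push_cast
    rw [← hL]
    have h2 := Nat.floor_le (show 0 ≤ (K0 : ℝ) * Real.log L by positivity)
    linarith
  have hpow : (2 : ℝ) ^ e.primeFactors.card ≤ 2 * L ^ K0 := by
    have h1 : (2 : ℝ) ^ e.primeFactors.card ≤ 2 ^ kT K0 T :=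
      pow_le_pow_right₀ (by norm_num) hcard
    refine h1.trans ?_
    have h2 : (2 : ℝ) ^ kT K0 T = 2 * 2 ^ ⌊(K0 : ℝ) * Real.log L⌋₊ := by
      unfold kT
      rw [← hL, pow_succ]
      ring
    rw [h2]
    refine mul_le_mul_of_nonneg_left ?_ (by norm_num)
    have h3 : (2 : ℝ) ^ ⌊(K0 : ℝ) * Real.log L⌋₊ ≤ Real.exp 1 ^ ⌊(K0 : ℝ) * Real.log L⌋₊ :=
      pow_le_pow_left₀ (by norm_num) (by have := Real.add_one_le_exp (1 : ℝ); linarith) _
    refine h3.trans ?_
    rw [← Real.exp_nat_mul, mul_one]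
    have h4 := Nat.floor_le (show 0 ≤ (K0 : ℝ) * Real.log L by positivity)
    refine (Real.exp_le_exp.2 h4).trans (le_of_eq ?_)
    rw [Real.exp_nat_mul, Real.exp_log hL0]
  -- the size of `w`
  have hw : L ^ A ≤ (wT A T : ℝ) := by
    unfold wT
    push_cast
    rw [← hL]
    have h1 := (Nat.lt_floor_add_one (L ^ A)).le
    linarith
  have hw5 : 5 ≤ wT A T := by
    unfold wT
    omega
  have hLA : 0 < L ^ A := by positivity
  -- not bad
  have hb : ∀ f ∈ e.divisors, f ≠ 1 → |GG z (wT A T) T f| ≤ 1 / L ^ B * T := by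
    intro f hf hf1
    by_contra hcon
    push Not at hcon
    apply hbad
    unfold Bad
    rw [mem_filter]
    refine ⟨he, f, hf, hf1, ?_⟩
    rw [← hL]
    exact hcon
  have hmain := main hz0 hz1 hw5 (by omega) m2 (show 0 ≤ 1 / L ^ B by positivity) hb
  refine le_trans ?_ hmain
  -- the lower bound for `GG 1`
  obtain ⟨G, hG⟩ : ∃ G, G = GG z (wT A T) T 1 := ⟨_, rfl⟩
  rw [← hG] at hCT ⊢
  have hG1 : (T : ℝ) / L ^ 2 ≤ G := by
    refine le_trans ?_ hCT
    have h1 : 1 / L ≤ L ^ (z - 1) := by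
      have h2 : L ^ (-1 : ℝ) ≤ L ^ (z - 1) :=
        Real.rpow_le_rpow_of_exponent_le (by linarith) (by linarith)
      rw [Real.rpow_neg_one] at h2
      rw [one_div]
      exact h2
    have h3 : 0 < Real.log L ^ C := Real.rpow_pos_of_pos hlogL C
    rw [div_le_div_iff₀ (by positivity) h3]
    have h4 : Real.log L ^ C ≤ L ^ (z - 1) * L ^ 2 := by
      have h5 : L ≤ L ^ (z - 1) * L ^ 2 := by
        calc L = 1 / L * L ^ 2 := by field_simp
          _ ≤ _ := mul_le_mul_of_nonneg_right h1 (by positivity)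
      linarith
    calc (T : ℝ) * Real.log L ^ C ≤ T * (L ^ (z - 1) * L ^ 2) :=
          mul_le_mul_of_nonneg_left h4 hTp.le
      _ = _ := by ring
  have hGp : 0 < G := lt_of_lt_of_le (by positivity) hG1
  obtain ⟨P, hP⟩ : ∃ P : ℝ, P = 2 ^ e.primeFactors.card := ⟨_, rfl⟩
  rw [← hP] at hpow ⊢
  have hPp : 0 < P := by rw [hP]; positivity
  have hLK : 0 < L ^ K0 := by positivity
  -- `G / (2 P) ≥ T / (4 L ^ (K0 + 2))`
  have k1 : (T : ℝ) / (4 * L ^ (K0 + 2)) ≤ G / (2 * P) := by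
    rw [div_le_div_iff₀ (by positivity) (by positivity)]
    have h1 : (T : ℝ) ≤ G * L ^ 2 := by
      rw [div_le_iff₀ (by positivity)] at hG1
      exact hG1
    calc (T : ℝ) * (2 * P) ≤ (G * L ^ 2) * (2 * (2 * L ^ K0)) := by
          refine mul_le_mul h1 (by linarith) (by positivity) (by positivity)
      _ = G * (4 * L ^ (K0 + 2)) := by ring
  have k2 : 1 / L ^ B * T ≤ T / (8 * L ^ (K0 + 2)) := by
    have h1 : L ^ (K0 + 3) ≤ L ^ B := pow_le_pow_right₀ (by linarith) hB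
    have h2 : 8 * L ^ (K0 + 2) ≤ L ^ B := by
      refine le_trans ?_ h1
      rw [pow_succ L (K0 + 2), mul_comm]
      exact mul_le_mul_of_nonneg_left d3 (by positivity)
    rw [one_div_mul_eq_div]
    exact div_le_div_of_nonneg_left hTp.le (by positivity) h2
  have k3 : (e.primeFactors.card : ℝ) * ((T : ℝ) / (wT A T)) ≤ T / (8 * L ^ (K0 + 2)) := by
    have h1 : L ^ (K0 + 4) ≤ (wT A T : ℝ) := (pow_le_pow_right₀ (by linarith) hA).trans hw
    have h2 : 0 < L ^ (K0 + 4) := by positivity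
    have h3 : (T : ℝ) / (wT A T) ≤ T / L ^ (K0 + 4) := div_le_div_of_nonneg_left hTp.le h2 h1
    calc (e.primeFactors.card : ℝ) * ((T : ℝ) / (wT A T)) ≤
          (K0 * Real.log L + 1) * (T / L ^ (K0 + 4)) :=
          mul_le_mul hk1 h3 (by positivity) (by positivity)
      _ ≤ (L ^ 2 / 8) * (T / L ^ (K0 + 4)) := by
          refine mul_le_mul_of_nonneg_right (by linarith) (by positivity)
      _ = T / (8 * L ^ (K0 + 2)) := by
          field_simp
          ring
  have k4 : G / (2 * P) + G / (2 * P) = G / P := by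
    field_simp
    ring
  have k5 : (T : ℝ) / (8 * L ^ (K0 + 2)) + T / (8 * L ^ (K0 + 2)) = T / (4 * L ^ (K0 + 2)) := by
    field_simp
    ring
  linarith

end Pool.Agent.H514.MX
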