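import Pool.Graph.R_pool_sql_team_seeded_f72693b1.W430.IM.ZLOW

/-! MX-2 (EXPM) for helper514, by helper286: part A, residue classes and sums over divisors. -/

set_option autoImplicit false

namespace Pool.Agent.H286.MX

open Finset Filter Pool.Agent.W262.RK Pool.Agent.W307.IM
open Pool.Agent.W430.IM.ZLOW (cz_nonneg me_mem)

/-- half of the classes -/
theorem half (p : ℕ) (hp : p.Prime) (hp2 : p ≠ 2) :
    2 * ((range p).filter (fun c : ℕ => jacobiSym (3 * (c : ℤ)) p = 1)).card ≤ p := by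
  have : Fact p.Prime := ⟨hp⟩
  have h0 : ∑ c ∈ range p, jacobiSym (3 * (c : ℤ)) p = 0 := by
    have h1 : ∀ c ∈ range p, jacobiSym (3 * (c : ℤ)) p =
        quadraticChar (ZMod p) ((3 : ZMod p) * (c : ZMod p)) := by
      intro c _
      rw [← jacobiSym.legendreSym.to_jacobiSym, legendreSym]
      push_cast
      rfl
    rw [sum_congr rfl h1]
    have h2 : ∑ c ∈ range p, quadraticChar (ZMod p) ((3 : ZMod p) * (c : ZMod p)) =
        ∑ x : ZMod p, quadraticChar (ZMod p) (3 * x) := by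
      refine Finset.sum_nbij' (fun c => (c : ZMod p)) (fun x => x.val) ?_ ?_ ?_ ?_ ?_
      · intro c _; exact mem_univ _
      · intro x _; exact mem_range.2 (ZMod.val_lt x)
      · intro c hc; exact ZMod.val_cast_of_lt (mem_range.1 hc)
      · intro x _; exact ZMod.natCast_zmod_val x
      · intro c _; rfl
    rw [h2]
    simp only [map_mul]
    rw [← mul_sum, quadraticChar_sum_zero, mul_zero]
    rw [ZMod.ringChar_zmod_n]
    exact hp2
  have h3 : ∑ c ∈ range p, (1 + jacobiSym (3 * (c : ℤ)) p) = p := by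
    rw [sum_add_distrib, h0]
    simp
  have h4 : ∑ c ∈ (range p).filter (fun c : ℕ => jacobiSym (3 * (c : ℤ)) p = 1), (2 : ℤ) ≤
      ∑ c ∈ range p, (1 + jacobiSym (3 * (c : ℤ)) p) := by
    calc ∑ c ∈ (range p).filter (fun c : ℕ => jacobiSym (3 * (c : ℤ)) p = 1), (2 : ℤ)
        = ∑ c ∈ (range p).filter (fun c : ℕ => jacobiSym (3 * (c : ℤ)) p = 1),
            (1 + jacobiSym (3 * (c : ℤ)) p) :=
          sum_congr rfl fun c hc => by rw [(mem_filter.1 hc).2]; norm_num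
      _ ≤ _ := sum_le_sum_of_subset_of_nonneg (filter_subset _ _) fun c _ _ => by
          rcases jacobiSym.trichotomy (3 * (c : ℤ)) p with h | h | h <;> rw [h] <;> norm_num
  rw [h3, sum_const, nsmul_eq_mul] at h4
  have h5 : ((2 * ((range p).filter (fun c : ℕ => jacobiSym (3 * (c : ℤ)) p = 1)).card : ℕ) : ℤ)
      ≤ (p : ℕ) := by
    push_cast
    linarith
  exact_mod_cast h5

open Classical in
/-- the classes with the condition -/
noncomputable def Qe (e : ℕ) : Finset ℕ :=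
  (range e).filter (fun c : ℕ => ∀ p : ℕ, p.Prime → p ∣ e → jacobiSym (3 * (c : ℤ)) p = 1)

theorem jac_mod (p c : ℕ) : jacobiSym (3 * ((c % p : ℕ) : ℤ)) p = jacobiSym (3 * (c : ℤ)) p := by
  rw [jacobiSym.mod_left, jacobiSym.mod_left (3 * (c : ℤ))]
  congr 1
  push_cast
  rw [Int.mul_emod, Int.emod_emod_of_dvd _ dvd_rfl, ← Int.mul_emod]

theorem card_Qe {e : ℕ} (he : Squarefree e) (h5 : ∀ p : ℕ, p.Prime → p ∣ e → 5 < p) :
    (Qe e).card * 2 ^ e.primeFactors.card ≤ e := by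
  classical
  have h1 : (Qe e).card ≤ (e.primeFactors.pi fun p =>
      (range p).filter (fun c : ℕ => jacobiSym (3 * (c : ℤ)) p = 1)).card := by
    refine card_le_card_of_injOn (fun c p _ => c % p) ?_ ?_
    · intro c hc
      simp only [Qe, coe_filter, Set.mem_ofPred_eq] at hc
      rw [mem_coe, Finset.mem_pi]
      intro p hp
      have hpp := Nat.prime_of_mem_primeFactors hp
      rw [mem_filter, mem_range]
      refine ⟨Nat.mod_lt _ hpp.pos, ?_⟩
      rw [jac_mod]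
      exact hc.2 p hpp (Nat.dvd_of_mem_primeFactors hp)
    · intro c hc c' hc' h
      simp only [Qe, coe_filter, Set.mem_ofPred_eq, mem_range] at hc hc'
      have h2 : ∀ p ∈ e.primeFactors, c ≡ c' [MOD p] := by
        intro p hp
        exact congrFun (congrFun h p) hp
      have h3 : e ∣ (Int.natAbs ((c : ℤ) - c')) := by
        rw [← Nat.prod_primeFactors_of_squarefree he]
        refine Finset.prod_primes_dvd _ (fun p hp => (Nat.prime_of_mem_primeFactors hp).prime) ?_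
        intro p hp
        rw [← Int.natCast_dvd]
        exact (Nat.modEq_iff_dvd.1 (h2 p hp).symm)
      by_contra hne
      have h4 : 0 < Int.natAbs ((c : ℤ) - c') := by omega
      have h6 := Nat.le_of_dvd h4 h3
      omega
  rw [card_pi] at h1
  calc (Qe e).card * 2 ^ e.primeFactors.card
      ≤ (∏ p ∈ e.primeFactors, ((range p).filter
          (fun c : ℕ => jacobiSym (3 * (c : ℤ)) p = 1)).card) * 2 ^ e.primeFactors.card :=
        Nat.mul_le_mul_right _ h1
    _ = ∏ p ∈ e.primeFactors, (2 * ((range p).filter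
          (fun c : ℕ => jacobiSym (3 * (c : ℤ)) p = 1)).card) := by
        rw [prod_mul_distrib, prod_const]
        ring
    _ ≤ ∏ p ∈ e.primeFactors, p := prod_le_prod' fun p hp => by
        have hpp := Nat.prime_of_mem_primeFactors hp
        have := h5 p hpp (Nat.dvd_of_mem_primeFactors hp)
        exact half p hpp (by omega)
    _ = e := Nat.prod_primeFactors_of_squarefree he

/-- Cauchy's inequality over the classes -/
theorem cauchy (R Q : Finset ℕ) (e : ℕ) (X : ℕ → ℝ) (hX : ∀ a, 0 ≤ X a)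
    (hQ : ∀ a ∈ R, X a ≠ 0 → a % e ∈ Q) :
    (∑ a ∈ R, X a) ^ 2 ≤ Q.card * ∑ a ∈ R, ∑ b ∈ R, if a % e = b % e then X a * X b else 0 := by
  classical
  have h1 : ∑ a ∈ R, X a = ∑ c ∈ Q, ∑ a ∈ R, if a % e = c then X a else 0 := by
    rw [sum_comm]
    refine sum_congr rfl fun a ha => ?_
    rw [sum_ite_eq]
    split_ifs with h
    · rfl
    · by_contra hne
      exact h (hQ a ha hne)
  rw [h1]
  refine sq_sum_le_card_mul_sum_sq.trans ?_
  refine mul_le_mul_of_nonneg_left ?_ (Nat.cast_nonneg _)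
  have h2 : ∀ c ∈ Q, (∑ a ∈ R, if a % e = c then X a else 0) ^ 2 =
      ∑ a ∈ R, ∑ b ∈ R, (if a % e = c then X a else 0) * (if b % e = c then X b else 0) := by
    intro c _
    rw [sq, sum_mul_sum]
  rw [sum_congr rfl h2, sum_comm]
  refine sum_le_sum fun a ha => ?_
  rw [sum_comm]
  refine sum_le_sum fun b hb => ?_
  have h3 : ∑ c ∈ Q, (if a % e = c then X a else 0) * (if b % e = c then X b else 0) =
      ∑ c ∈ Q, (if a % e = c then (X a * (if b % e = a % e then X b else 0)) else 0) := by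
    refine sum_congr rfl fun c _ => ?_
    split_ifs with h4 h5 h6
    all_goals first | rfl | (subst h4; simp_all) | simp
  rw [h3, sum_ite_eq]
  split_ifs with h7 h8 h9 h10
  · exact le_rfl
  · exact absurd h8.symm h9
  · exact absurd h10.symm h8
  · simp
  · exact mul_nonneg (hX a) (hX b)
  · exact le_rfl

/-- sums over squarefree numbers -/
theorem sub_sum (F : Finset ℕ) (S : Finset ℕ) {u : ℝ} (hu : 0 ≤ u) (hF : ∀ e ∈ F, Squarefree e)
    (hS : ∀ e ∈ F, e.primeFactors ⊆ S) : ∑ e ∈ F, u ^ e.primeFactors.card ≤ (1 + u) ^ S.card := by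
  classical
  have hinj : Set.InjOn (fun e : ℕ => e.primeFactors) F := by
    intro e he e' he' h
    simp only at h
    rw [← Nat.prod_primeFactors_of_squarefree (hF e he),
      ← Nat.prod_primeFactors_of_squarefree (hF e' he'), h]
  calc ∑ e ∈ F, u ^ e.primeFactors.card = ∑ E ∈ F.image (fun e => e.primeFactors), u ^ E.card := by
        rw [sum_image hinj]
    _ ≤ ∑ E ∈ S.powerset, u ^ E.card := by
        refine sum_le_sum_of_subset_of_nonneg ?_ fun E _ _ => by positivity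
        intro E hE
        obtain ⟨e, he, rfl⟩ := mem_image.1 hE
        exact mem_powerset.2 (hS e he)
    _ = (1 + u) ^ S.card := by
        have := Finset.sum_pow_mul_eq_add_pow u 1 S
        simp only [one_pow, mul_one] at this
        rw [this, add_comm]

/-- powers of `K + 2` and divisors -/
theorem pow_div (K n : ℕ) (hn : n ≠ 0) :
    (K + 2) ^ n.primeFactors.card ≤ ∑ d ∈ n.divisors, (K + 1) ^ d.primeFactors.card := by
  classical
  have h1 : (K + 2) ^ n.primeFactors.card = ∑ E ∈ n.primeFactors.powerset, (K + 1) ^ E.card := by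
    have := Finset.sum_pow_mul_eq_add_pow (K + 1) 1 n.primeFactors
    simp only [one_pow, mul_one] at this
    rw [this]
  rw [h1]
  have hpf : ∀ E ∈ n.primeFactors.powerset, (∏ p ∈ E, p).primeFactors = E := by
    intro E hE
    exact Nat.primeFactors_prod fun p hp =>
      Nat.prime_of_mem_primeFactors (mem_powerset.1 hE hp)
  have hinj : Set.InjOn (fun E : Finset ℕ => ∏ p ∈ E, p) (n.primeFactors.powerset : Set _) := by
    intro E hE E' hE' h
    simp only at h
    rw [← hpf E hE, ← hpf E' hE', h]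
  calc ∑ E ∈ n.primeFactors.powerset, (K + 1) ^ E.card
      = ∑ E ∈ n.primeFactors.powerset, (K + 1) ^ (∏ p ∈ E, p).primeFactors.card :=
        sum_congr rfl fun E hE => by rw [hpf E hE]
    _ = ∑ d ∈ n.primeFactors.powerset.image (fun E => ∏ p ∈ E, p),
          (K + 1) ^ d.primeFactors.card := by rw [sum_image hinj]
    _ ≤ _ := by
        refine sum_le_sum_of_subset_of_nonneg ?_ fun _ _ _ => Nat.zero_le _
        intro d hd
        obtain ⟨E, hE, rfl⟩ := mem_image.1 hd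
        rw [Nat.mem_divisors]
        refine ⟨?_, hn⟩
        exact (Finset.prod_dvd_prod_of_subset _ _ _ (mem_powerset.1 hE)).trans
          (Nat.prod_primeFactors_dvd n)

/-- sums over divisors -/
theorem div_sum (N : ℕ) (f : ℕ → ℝ) (hf : ∀ d, 0 ≤ f d) :
    ∑ n ∈ Icc 1 N, ∑ d ∈ n.divisors, f d ≤ ∑ m ∈ Icc 1 N, ∑ d ∈ Icc 1 (N / m), f d := by
  classical
  rw [sum_sigma', sum_sigma']
  have hinj : Set.InjOn (fun x : (_ : ℕ) × ℕ => (⟨x.1 / x.2, x.2⟩ : (_ : ℕ) × ℕ))
      ((Icc 1 N).sigma fun n => n.divisors : Finset _) := by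
    rintro ⟨n, d⟩ hx ⟨n', d'⟩ hx' h
    rw [mem_coe, mem_sigma, Nat.mem_divisors] at hx hx'
    simp only [Sigma.mk.injEq, heq_eq_eq] at h
    obtain ⟨h1, h2⟩ := h
    simp only at hx hx'
    subst h2
    have h3 : n = n' := by
      rw [← Nat.div_mul_cancel hx.2.1, ← Nat.div_mul_cancel hx'.2.1, h1]
    subst h3
    rfl
  calc ∑ x ∈ (Icc 1 N).sigma (fun n => n.divisors), f x.2
      = ∑ x ∈ ((Icc 1 N).sigma (fun n => n.divisors)).image
          (fun x : (_ : ℕ) × ℕ => (⟨x.1 / x.2, x.2⟩ : (_ : ℕ) × ℕ)), f x.2 := by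
        rw [sum_image hinj]
    _ ≤ _ := by
        refine sum_le_sum_of_subset_of_nonneg ?_ fun x _ _ => hf _
        intro y hy
        obtain ⟨⟨n, d⟩, hx, rfl⟩ := mem_image.1 hy
        rw [mem_sigma, Nat.mem_divisors, mem_Icc] at hx
        simp only at hx
        obtain ⟨⟨h1, h2⟩, h3, h4⟩ := hx
        have hd : 0 < d := Nat.pos_of_dvd_of_pos h3 (by omega)
        have hnd : 0 < n / d := Nat.div_pos (Nat.le_of_dvd (by omega) h3) hd
        rw [mem_sigma, mem_Icc, mem_Icc]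
        refine ⟨⟨hnd, (Nat.div_le_self _ _).trans h2⟩, hd, ?_⟩
        rw [Nat.le_div_iff_mul_le hnd]
        calc d * (n / d) = n := Nat.mul_div_cancel' h3
          _ ≤ N := h2

theorem inv_sum (N : ℕ) : ∑ m ∈ Icc 1 N, 1 / (m : ℝ) ≤ 1 + Real.log N := by
  have h := harmonic_le_one_add_log N
  rw [harmonic_eq_sum_Icc] at h
  push_cast at h
  simpa only [one_div] using h

/-- the mean value of `(K + 1) ^ ω(n)` -/
theorem omega_sum (K N : ℕ) :
    ∑ n ∈ Icc 1 N, ((K : ℝ) + 1) ^ n.primeFactors.card ≤ N * (1 + Real.log N) ^ K := by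
  induction K generalizing N with
  | zero => simp
  | succ K ih =>
    have hlog : ∀ M : ℕ, 0 ≤ Real.log M := fun M => Real.log_natCast_nonneg M
    have h1 : ∑ n ∈ Icc 1 N, (((K + 1 : ℕ) : ℝ) + 1) ^ n.primeFactors.card ≤
        ∑ n ∈ Icc 1 N, ∑ d ∈ n.divisors, ((K : ℝ) + 1) ^ d.primeFactors.card := by
      refine sum_le_sum fun n hn => ?_
      have h2 := pow_div K n (by rw [mem_Icc] at hn; omega)
      have h3 : (((K + 2) ^ n.primeFactors.card : ℕ) : ℝ) ≤
          ((∑ d ∈ n.divisors, (K + 1) ^ d.primeFactors.card : ℕ) : ℝ) := by exact_mod_cast h2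
      push_cast at h3 ⊢
      rw [show (K : ℝ) + 1 + 1 = K + 2 by ring]
      exact h3
    refine h1.trans ((div_sum N _ fun d => by positivity).trans ?_)
    calc ∑ m ∈ Icc 1 N, ∑ d ∈ Icc 1 (N / m), ((K : ℝ) + 1) ^ d.primeFactors.card
        ≤ ∑ m ∈ Icc 1 N, ((N / m : ℕ) : ℝ) * (1 + Real.log ((N / m : ℕ) : ℝ)) ^ K :=
          sum_le_sum fun m _ => ih (N / m)
      _ ≤ ∑ m ∈ Icc 1 N, ((N : ℝ) * (1 + Real.log N) ^ K) * (1 / (m : ℝ)) := by
          refine sum_le_sum fun m hm => ?_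
          rw [mem_Icc] at hm
          have h4 : ((N / m : ℕ) : ℝ) ≤ N / m := Nat.cast_div_le
          have hNm : 1 ≤ N / m := (Nat.one_le_div_iff (by omega)).2 hm.2
          have h5 : Real.log ((N / m : ℕ) : ℝ) ≤ Real.log N :=
            Real.log_le_log (by exact_mod_cast hNm) (by exact_mod_cast Nat.div_le_self N m)
          have h6 := hlog (N / m)
          calc ((N / m : ℕ) : ℝ) * (1 + Real.log ((N / m : ℕ) : ℝ)) ^ K
              ≤ ((N : ℝ) / m) * (1 + Real.log N) ^ K := by gcongr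
            _ = _ := by ring
      _ ≤ ((N : ℝ) * (1 + Real.log N) ^ K) * (1 + Real.log N) := by
          rw [← mul_sum]
          have := hlog N
          exact mul_le_mul_of_nonneg_left (inv_sum N) (by positivity)
      _ = _ := by ring

/-- the condition -/
def Cnd (e a : ℕ) : Prop := ∀ p : ℕ, p.Prime → p ∣ e → jacobiSym (3 * (a : ℤ)) p = 1

open Classical in
/-- the summands of `AE` -/
noncomputable def Xe (z : ℝ) (w e a : ℕ) : ℝ := if Cnd e a then cz z w a else 0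

open Classical in
/-- the sum over the moduli -/
noncomputable def WW (A K0 T : ℕ) (u : ℝ) (a b : ℕ) : ℝ :=
  ∑ e ∈ (ME A K0 T).filter (fun e => a % e = b % e ∧ Cnd e a), u ^ e.primeFactors.card

theorem cz_zero (z : ℝ) (w : ℕ) : cz z w 0 = 0 := by
  simp [cz]

theorem AE_eq (z : ℝ) (w T e : ℕ) : AE z w T e = ∑ a ∈ Icc 1 T, Xe z w e a := by
  classical
  have h1 : AE z w T e = ∑ a ∈ range (T + 1), Xe z w e a := by
    unfold AE Xe Cnd
    rw [sum_filter]
  rw [h1]
  symm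
  refine sum_subset (fun a ha => ?_) (fun a ha ha' => ?_)
  · rw [mem_Icc] at ha
    rw [mem_range]
    omega
  · rw [mem_range] at ha
    rw [mem_Icc] at ha'
    have : a = 0 := by omega
    subst this
    unfold Xe
    rw [cz_zero]
    simp

theorem Xe_nonneg {z : ℝ} (hz : 0 < z) (w e a : ℕ) : 0 ≤ Xe z w e a := by
  unfold Xe
  split_ifs
  · exact cz_nonneg hz w a
  · exact le_rfl

theorem ME_sq {A K0 T e : ℕ} (he : e ∈ ME A K0 T) : Squarefree e := by
  classical
  unfold ME at he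
  exact dv_squarefree (mem_filter.1 he).1

theorem ME_card {A K0 T e : ℕ} (he : e ∈ ME A K0 T) : e.primeFactors.card ≤ kT K0 T := by
  classical
  unfold ME at he
  exact (mem_filter.1 he).2

/-- one modulus -/
theorem one_mod {A K0 T e : ℕ} (hT : 1 ≤ T) (he : e ∈ ME A K0 T) {z : ℝ} (hz : 0 < z) (w : ℕ) :
    (2 : ℝ) ^ e.primeFactors.card / (e : ℝ) * (AE z w T e) ^ 2 ≤
      ∑ a ∈ Icc 1 T, ∑ b ∈ Icc 1 T, if a % e = b % e then Xe z w e a * Xe z w e b else 0 := by
  classical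
  obtain ⟨he1, hep, _⟩ := me_mem hT he
  have h5 : ∀ p : ℕ, p.Prime → p ∣ e → 5 < p := by
    intro p hp hpe
    have := hep p hp hpe
    unfold wT at this
    omega
  have hQ := card_Qe (ME_sq he) h5
  have hc := cauchy (Icc 1 T) (Qe e) e (Xe z w e) (Xe_nonneg hz w e) (by
    intro a _ ha
    have hcnd : Cnd e a := by
      by_contra hn
      apply ha
      unfold Xe
      rw [if_neg hn]
    unfold Qe
    rw [mem_filter, mem_range]
    refine ⟨Nat.mod_lt _ (by omega), fun p hp hpe => ?_⟩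
    rw [← jac_mod, Nat.mod_mod_of_dvd _ hpe, jac_mod]
    exact hcnd p hp hpe)
  rw [← AE_eq] at hc
  have he0 : (0 : ℝ) < e := by exact_mod_cast he1
  set S : ℝ := ∑ a ∈ Icc 1 T, ∑ b ∈ Icc 1 T, if a % e = b % e then Xe z w e a * Xe z w e b else 0
    with hS
  have hS0 : 0 ≤ S := sum_nonneg fun a _ => sum_nonneg fun b _ => by
    split_ifs
    · exact mul_nonneg (Xe_nonneg hz _ _ _) (Xe_nonneg hz _ _ _)
    · exact le_rfl
  have hQ' : ((Qe e).card : ℝ) * 2 ^ e.primeFactors.card ≤ e := by exact_mod_cast hQ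
  rw [div_mul_eq_mul_div, div_le_iff₀ he0]
  calc (2 : ℝ) ^ e.primeFactors.card * (AE z w T e) ^ 2
      ≤ 2 ^ e.primeFactors.card * ((Qe e).card * S) :=
        mul_le_mul_of_nonneg_left hc (by positivity)
    _ = ((Qe e).card * 2 ^ e.primeFactors.card) * S := by ring
    _ ≤ e * S := mul_le_mul_of_nonneg_right hQ' hS0
    _ = S * e := by ring

/-- the expansion -/
theorem expand {A K0 T : ℕ} (hT : 1 ≤ T) {z u : ℝ} (hz : 0 < z) (hu : 0 ≤ u) (w : ℕ) :
    ∑ e ∈ ME A K0 T, u ^ e.primeFactors.card *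
      (2 ^ e.primeFactors.card / (e : ℝ)) * (AE z w T e) ^ 2 ≤
      ∑ a ∈ Icc 1 T, ∑ b ∈ Icc 1 T, cz z w a * cz z w b * WW A K0 T u a b := by
  classical
  calc ∑ e ∈ ME A K0 T, u ^ e.primeFactors.card *
      (2 ^ e.primeFactors.card / (e : ℝ)) * (AE z w T e) ^ 2
      ≤ ∑ e ∈ ME A K0 T, ∑ a ∈ Icc 1 T, ∑ b ∈ Icc 1 T, u ^ e.primeFactors.card *
          (if a % e = b % e then Xe z w e a * Xe z w e b else 0) := by
        refine sum_le_sum fun e he => ?_
        have h1 := one_mod hT he hz w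
        simp only [← mul_sum]
        rw [mul_assoc]
        exact mul_le_mul_of_nonneg_left h1 (by positivity)
    _ = ∑ a ∈ Icc 1 T, ∑ b ∈ Icc 1 T, ∑ e ∈ ME A K0 T, u ^ e.primeFactors.card *
          (if a % e = b % e then Xe z w e a * Xe z w e b else 0) := by
        rw [sum_comm]
        refine sum_congr rfl fun a _ => ?_
        rw [sum_comm]
    _ ≤ _ := by
        refine sum_le_sum fun a _ => sum_le_sum fun b _ => ?_
        unfold WW
        rw [sum_filter, mul_sum]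
        refine sum_le_sum fun e _ => ?_
        have hca := cz_nonneg hz w a
        have hcb := cz_nonneg hz w b
        have hun : 0 ≤ u ^ e.primeFactors.card := by positivity
        unfold Xe
        by_cases h1 : a % e = b % e
        · by_cases h2 : Cnd e a
          · rw [if_pos h1, if_pos h2, if_pos (show a % e = b % e ∧ Cnd e a from ⟨h1, h2⟩)]
            split_ifs
            · exact le_of_eq (by ring)
            · rw [mul_zero, mul_zero]
              positivity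
          · rw [if_pos h1, if_neg h2, zero_mul, mul_zero, if_neg (fun h => h2 h.2), mul_zero]
        · rw [if_neg h1, mul_zero, if_neg (fun h => h1 h.1), mul_zero]

theorem WW_nonneg {A K0 T : ℕ} {u : ℝ} (hu : 0 ≤ u) (a b : ℕ) : 0 ≤ WW A K0 T u a b := by
  unfold WW
  exact sum_nonneg fun e _ => by positivity

theorem WW_sub {A K0 T : ℕ} {u : ℝ} (hu : 0 ≤ u) (hT : 1 ≤ T) {a b : ℕ} (hab : a ≠ b) :
    WW A K0 T u a b ≤ (1 + u) ^ (S2 a b).card ∧
      WW A K0 T u a b ≤ (1 + u) ^ (Int.natAbs ((a : ℤ) - b)).primeFactors.card := by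
  classical
  have hd : ∀ e : ℕ, a % e = b % e → e ∣ Int.natAbs ((a : ℤ) - b) := by
    intro e h
    rw [← Int.natCast_dvd]
    have h1 : b ≡ a [MOD e] := h.symm
    exact Nat.modEq_iff_dvd.1 h1
  have hne : Int.natAbs ((a : ℤ) - b) ≠ 0 := by omega
  unfold WW
  constructor
  · refine sub_sum _ _ hu (fun e he => ME_sq (mem_filter.1 he).1) fun e he => ?_
    rw [mem_filter] at he
    obtain ⟨he1, hep, _⟩ := me_mem hT he.1
    intro p hp
    have hpp := Nat.prime_of_mem_primeFactors hp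
    have hpd := Nat.dvd_of_mem_primeFactors hp
    unfold S2
    rw [mem_filter, Nat.mem_primeFactors]
    refine ⟨⟨hpp, hpd.trans (hd e he.2.1), hne⟩, ?_, he.2.2 p hpp hpd⟩
    have := hep p hpp hpd
    unfold wT at this
    omega
  · refine sub_sum _ _ hu (fun e he => ME_sq (mem_filter.1 he).1) fun e he => ?_
    rw [mem_filter] at he
    exact Nat.primeFactors_mono (hd e he.2.1) hne

theorem WW_diag {A K0 T : ℕ} {u : ℝ} (hu : 0 ≤ u) (hT : 1 ≤ T) (a b : ℕ) :
    WW A K0 T u a b ≤ (T : ℝ) ^ (1 / 4 : ℝ) * (1 + u) ^ kT K0 T := by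
  classical
  have h1 : WW A K0 T u a b ≤ ∑ e ∈ ME A K0 T, (1 + u) ^ kT K0 T := by
    unfold WW
    refine (sum_le_sum_of_subset_of_nonneg (filter_subset _ _)
      (fun e _ _ => by positivity)).trans (sum_le_sum fun e he => ?_)
    calc u ^ e.primeFactors.card ≤ (1 + u) ^ e.primeFactors.card :=
          pow_le_pow_left₀ hu (by linarith) _
      _ ≤ (1 + u) ^ kT K0 T := pow_le_pow_right₀ (by linarith) (ME_card he)
  refine h1.trans ?_
  rw [sum_const, nsmul_eq_mul]
  refine mul_le_mul_of_nonneg_right ?_ (by positivity)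
  have h2 : ME A K0 T ⊆ Icc 1 ⌊(T : ℝ) ^ (1 / 4 : ℝ)⌋₊ := by
    intro e he
    obtain ⟨he1, _, he2⟩ := me_mem hT he
    rw [mem_Icc]
    exact ⟨he1, Nat.le_floor he2⟩
  have h3 := card_le_card h2
  rw [Nat.card_Icc, Nat.add_sub_cancel] at h3
  calc ((ME A K0 T).card : ℝ) ≤ (⌊(T : ℝ) ^ (1 / 4 : ℝ)⌋₊ : ℝ) := by exact_mod_cast h3
    _ ≤ _ := Nat.floor_le (by positivity)

theorem inj_sum (S R : Finset ℕ) (φ : ℕ → ℕ) (hinj : Set.InjOn φ S) (hm : ∀ x ∈ S, φ x ∈ R)
    (g : ℕ → ℝ) (hg : ∀ n, 0 ≤ g n) : ∑ x ∈ S, g (φ x) ≤ ∑ y ∈ R, g y := by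
  classical
  rw [← sum_image (f := g) hinj]
  refine sum_le_sum_of_subset_of_nonneg (fun y hy => ?_) fun y _ _ => hg y
  obtain ⟨x, hx, rfl⟩ := mem_image.1 hy
  exact hm x hx

theorem two_sum (N a : ℕ) (ha : a ≤ N) (g : ℕ → ℝ) (hg : ∀ n, 0 ≤ g n) :
    ∑ b ∈ Icc 1 N, (if a ≠ b then g (Int.natAbs ((a : ℤ) - b)) else 0) ≤
      2 * ∑ n ∈ Icc 1 N, g n := by
  classical
  have h1 : ∑ b ∈ (Icc 1 N).filter (fun b => b < a), g (a - b) ≤ ∑ n ∈ Icc 1 N, g n := by
    refine inj_sum _ _ (fun b => a - b) ?_ ?_ g hg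
    · intro b hb b' hb' h
      simp only [coe_filter, mem_Icc, Set.mem_ofPred_eq] at hb hb' h
      omega
    · intro b hb
      rw [mem_filter, mem_Icc] at hb
      rw [mem_Icc]
      omega
  have h2 : ∑ b ∈ (Icc 1 N).filter (fun b => a < b), g (b - a) ≤ ∑ n ∈ Icc 1 N, g n := by
    refine inj_sum _ _ (fun b => b - a) ?_ ?_ g hg
    · intro b hb b' hb' h
      simp only [coe_filter, mem_Icc, Set.mem_ofPred_eq] at hb hb' h
      omega
    · intro b hb
      rw [mem_filter, mem_Icc] at hb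
      rw [mem_Icc]
      omega
  have h3 : ∑ b ∈ Icc 1 N, (if a ≠ b then g (Int.natAbs ((a : ℤ) - b)) else 0) =
      ∑ b ∈ (Icc 1 N).filter (fun b => b < a), g (a - b) +
        ∑ b ∈ (Icc 1 N).filter (fun b => a < b), g (b - a) := by
    rw [sum_filter, sum_filter, ← sum_add_distrib]
    refine sum_congr rfl fun b _ => ?_
    rcases lt_trichotomy a b with h | h | h
    · rw [if_pos h.ne, if_neg (by omega), if_pos h, zero_add]
      congr 1
      omega
    · rw [if_neg (fun h' => h' h), if_neg (by omega), if_neg (by omega), add_zero]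
    · rw [if_pos h.ne', if_pos h, if_neg (by omega), add_zero]
      congr 1
      omega
  rw [h3]
  linarith

theorem mult_sum (T p : ℕ) (hp : 0 < p) (g : ℕ → ℝ) :
    ∑ a ∈ (Icc 1 T).filter (fun a => p ∣ a), g a = ∑ a ∈ Icc 1 (T / p), g (p * a) := by
  symm
  refine sum_nbij' (fun a => p * a) (fun a => a / p) ?_ ?_ ?_ ?_ ?_
  · intro a ha
    rw [mem_Icc] at ha
    rw [mem_filter, mem_Icc]
    refine ⟨⟨Nat.mul_pos hp ha.1, ?_⟩, dvd_mul_right _ _⟩
    calc p * a ≤ p * (T / p) := Nat.mul_le_mul_left _ ha.2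
      _ ≤ T := Nat.mul_div_le T p
  · intro a ha
    rw [mem_filter, mem_Icc] at ha
    rw [mem_Icc]
    exact ⟨Nat.div_pos (Nat.le_of_dvd (by omega) ha.2) hp, Nat.div_le_div_right ha.1.2⟩
  · intro a _
    exact Nat.mul_div_cancel_left a hp
  · intro a ha
    rw [mem_filter] at ha
    exact Nat.mul_div_cancel' ha.2
  · intro a _
    rfl

/-- the weight of a pair -/
noncomputable def V (K a b : ℕ) : ℝ :=
  ((K : ℝ) + 1) ^ (Int.natAbs ((a : ℤ) - b)).primeFactors.card

theorem V_mul (K p a b : ℕ) (hp : p.Prime) (hab : a ≠ b) :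
    V K (p * a) (p * b) ≤ ((K : ℝ) + 1) * V K a b := by
  unfold V
  have h1 : Int.natAbs (((p * a : ℕ) : ℤ) - ((p * b : ℕ) : ℤ)) =
      p * Int.natAbs ((a : ℤ) - b) := by
    rw [show ((p * a : ℕ) : ℤ) - ((p * b : ℕ) : ℤ) = (p : ℤ) * ((a : ℤ) - b) by push_cast; ring,
      Int.natAbs_mul, Int.natAbs_natCast]
  rw [h1, Nat.primeFactors_mul hp.ne_zero (by omega), hp.primeFactors]
  have h2 : ({p} ∪ (Int.natAbs ((a : ℤ) - b)).primeFactors).card ≤
      1 + (Int.natAbs ((a : ℤ) - b)).primeFactors.card := by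
    refine (card_union_le _ _).trans ?_
    rw [card_singleton]
  have hK : (1 : ℝ) ≤ (K : ℝ) + 1 := by
    have : (0 : ℝ) ≤ K := Nat.cast_nonneg K
    linarith
  calc ((K : ℝ) + 1) ^ ({p} ∪ (Int.natAbs ((a : ℤ) - b)).primeFactors).card
      ≤ ((K : ℝ) + 1) ^ (1 + (Int.natAbs ((a : ℤ) - b)).primeFactors.card) :=
        pow_le_pow_right₀ hK h2
    _ = _ := by rw [pow_add, pow_one]

/-- the pairs with a common prime factor -/
theorem pairs_p (K T p : ℕ) (hp : p.Prime) (hT : 1 ≤ T) :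
    ∑ a ∈ Icc 1 T, ∑ b ∈ Icc 1 T, (if p ∣ a ∧ p ∣ b ∧ a ≠ b then V K a b else 0) ≤
      2 * ((K : ℝ) + 1) * ((T : ℝ) / p) ^ 2 * (1 + Real.log T) ^ K := by
  classical
  have h1 : ∑ a ∈ Icc 1 T, ∑ b ∈ Icc 1 T, (if p ∣ a ∧ p ∣ b ∧ a ≠ b then V K a b else 0) =
      ∑ a ∈ (Icc 1 T).filter (fun a => p ∣ a), ∑ b ∈ (Icc 1 T).filter (fun b => p ∣ b),
        (if a ≠ b then V K a b else 0) := by
    rw [sum_filter]
    refine sum_congr rfl fun a _ => ?_
    rw [sum_filter]
    by_cases ha : p ∣ a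
    · rw [if_pos ha]
      refine sum_congr rfl fun b _ => ?_
      by_cases hb : p ∣ b
      · by_cases hab : a ≠ b
        · rw [if_pos ⟨ha, hb, hab⟩, if_pos hb, if_pos hab]
        · rw [if_neg (fun h => hab h.2.2), if_pos hb, if_neg hab]
      · rw [if_neg (fun h => hb h.2.1), if_neg hb]
    · rw [if_neg ha]
      exact sum_eq_zero fun b _ => if_neg fun h => ha h.1
  rw [h1, mult_sum T p hp.pos]
  set N := T / p with hN
  have hVn : ∀ a b, 0 ≤ V K a b := fun a b => by unfold V; positivity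
  have hK0 : (0 : ℝ) ≤ (K : ℝ) + 1 := by positivity
  have hlogT : 0 ≤ Real.log T := Real.log_natCast_nonneg T
  calc ∑ a ∈ Icc 1 N, ∑ b ∈ (Icc 1 T).filter (fun b => p ∣ b),
        (if p * a ≠ b then V K (p * a) b else 0)
      = ∑ a ∈ Icc 1 N, ∑ b ∈ Icc 1 N, (if p * a ≠ p * b then V K (p * a) (p * b) else 0) :=
        sum_congr rfl fun a _ => mult_sum T p hp.pos _
    _ ≤ ∑ a ∈ Icc 1 N, ∑ b ∈ Icc 1 N, ((K : ℝ) + 1) * (if a ≠ b then V K a b else 0) := by
        refine sum_le_sum fun a _ => sum_le_sum fun b _ => ?_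
        by_cases hab : a = b
        · subst hab
          simp
        · rw [if_pos hab, if_pos (fun h => hab (Nat.eq_of_mul_eq_mul_left hp.pos h))]
          exact V_mul K p a b hp hab
    _ ≤ ∑ a ∈ Icc 1 N, ((K : ℝ) + 1) * (2 * ((N : ℝ) * (1 + Real.log N) ^ K)) := by
        refine sum_le_sum fun a ha => ?_
        rw [← mul_sum]
        refine mul_le_mul_of_nonneg_left ?_ hK0
        refine (two_sum N a (mem_Icc.1 ha).2
          (fun n => ((K : ℝ) + 1) ^ n.primeFactors.card) (fun n => by positivity)).trans ?_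
        exact mul_le_mul_of_nonneg_left (omega_sum K N) (by norm_num)
    _ = 2 * ((K : ℝ) + 1) * (N : ℝ) ^ 2 * (1 + Real.log N) ^ K := by
        rw [sum_const, Nat.card_Icc, nsmul_eq_mul, Nat.add_sub_cancel]
        ring
    _ ≤ _ := by
        have h2 : (N : ℝ) ≤ (T : ℝ) / p := Nat.cast_div_le
        have h3 : Real.log N ≤ Real.log T := by
          rcases Nat.eq_zero_or_pos N with h | h
          · rw [h]
            simp only [Nat.cast_zero, Real.log_zero]
            exact hlogT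
          · exact Real.log_le_log (by exact_mod_cast h) (by exact_mod_cast Nat.div_le_self T p)
        have h4 : 0 ≤ Real.log N := Real.log_natCast_nonneg N
        gcongr

/-- the pointwise estimate -/
theorem point {A K0 T K : ℕ} (hT : 1 ≤ T) {s : ℝ} (hs : 0 < s) (hK : (2 : ℝ) ^ s ≤ (K : ℝ) + 1)
    {a b : ℕ} (ha : a ∈ Icc 1 T) (hb : b ∈ Icc 1 T) :
    cz ((2 : ℝ) ^ (-s)) (wT A T) a * cz ((2 : ℝ) ^ (-s)) (wT A T) b *
      WW A K0 T ((2 : ℝ) ^ s - 1) a b ≤
      (if a ≠ b ∧ a.Coprime b then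
        (2 : ℝ) ^ (s * (((S2 a b).card : ℝ) - (T2 a b).card)) else 0) +
      (if a = b then (T : ℝ) ^ (1 / 4 : ℝ) * ((2 : ℝ) ^ s) ^ kT K0 T else 0) +
      ∑ p ∈ (Ioc (wT A T) T).filter Nat.Prime, (if p ∣ a ∧ p ∣ b ∧ a ≠ b then V K a b else 0) := by
  classical
  set z : ℝ := (2 : ℝ) ^ (-s) with hz
  set w := wT A T with hw
  have hz0 : 0 < z := Real.rpow_pos_of_pos (by norm_num) _
  have hz1 : z ≤ 1 := Real.rpow_le_one_of_one_le_of_nonpos (by norm_num) (by linarith)
  have h2s : 1 ≤ (2 : ℝ) ^ s := Real.one_le_rpow (by norm_num) hs.le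
  set u : ℝ := (2 : ℝ) ^ s - 1 with hu
  have hu0 : 0 ≤ u := by rw [hu]; linarith
  have h1u : 1 + u = (2 : ℝ) ^ s := by rw [hu]; ring
  have hVn : ∀ a b, 0 ≤ V K a b := fun a b => by unfold V; positivity
  have t1 : 0 ≤ (if a ≠ b ∧ a.Coprime b then
        (2 : ℝ) ^ (s * (((S2 a b).card : ℝ) - (T2 a b).card)) else 0) := by
    split_ifs
    · positivity
    · exact le_rfl
  have t2 : 0 ≤ (if a = b then (T : ℝ) ^ (1 / 4 : ℝ) * ((2 : ℝ) ^ s) ^ kT K0 T else 0) := by
    split_ifs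
    · positivity
    · exact le_rfl
  have t3 : 0 ≤ ∑ p ∈ (Ioc w T).filter Nat.Prime,
      (if p ∣ a ∧ p ∣ b ∧ a ≠ b then V K a b else 0) :=
    sum_nonneg fun p _ => by
      split_ifs
      · exact hVn a b
      · exact le_rfl
  have hWn : 0 ≤ WW A K0 T u a b := WW_nonneg hu0 a b
  by_cases hca : cz z w a = 0
  · rw [hca, zero_mul, zero_mul]
    positivity
  by_cases hcb : cz z w b = 0
  · rw [hcb, mul_zero, zero_mul]
    positivity
  have hGa : 1 ≤ a ∧ ∀ p : ℕ, p.Prime → p ∣ a → w < p := by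
    by_contra hn
    apply hca
    unfold cz
    rw [if_neg hn]
  have hGb : 1 ≤ b ∧ ∀ p : ℕ, p.Prime → p ∣ b → w < p := by
    by_contra hn
    apply hcb
    unfold cz
    rw [if_neg hn]
  have hca' : cz z w a = z ^ a.primeFactors.card := by
    unfold cz
    rw [if_pos hGa]
  have hcb' : cz z w b = z ^ b.primeFactors.card := by
    unfold cz
    rw [if_pos hGb]
  have hle : cz z w a * cz z w b ≤ 1 := by
    rw [hca', hcb']
    exact mul_le_one₀ (pow_le_one₀ hz0.le hz1) (by positivity) (pow_le_one₀ hz0.le hz1)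
  have hleW : cz z w a * cz z w b * WW A K0 T u a b ≤ WW A K0 T u a b := by
    calc cz z w a * cz z w b * WW A K0 T u a b ≤ 1 * WW A K0 T u a b :=
          mul_le_mul_of_nonneg_right hle hWn
      _ = _ := one_mul _
  by_cases hab : a = b
  · have h3 := WW_diag (A := A) (K0 := K0) hu0 hT a b
    rw [h1u] at h3
    rw [if_pos hab]
    rw [if_pos hab] at t2
    linarith
  · have hsub := WW_sub (A := A) (K0 := K0) hu0 hT hab
    by_cases hcop : a.Coprime b
    · -- the main term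
      have h3 : cz z w a * cz z w b * WW A K0 T u a b ≤
          (2 : ℝ) ^ (s * (((S2 a b).card : ℝ) - (T2 a b).card)) := by
        have hT2 : (T2 a b).card ≤ a.primeFactors.card + b.primeFactors.card := by
          unfold T2
          refine (card_filter_le _ _).trans ?_
          rw [Int.natAbs_mul, Int.natAbs_natCast, Int.natAbs_natCast,
            Nat.primeFactors_mul (by omega) (by omega)]
          exact card_union_le _ _
        rw [hca', hcb', ← pow_add]
        calc z ^ (a.primeFactors.card + b.primeFactors.card) * WW A K0 T u a b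
            ≤ z ^ (T2 a b).card * (1 + u) ^ (S2 a b).card :=
              mul_le_mul (pow_le_pow_of_le_one hz0.le hz1 hT2) hsub.1 hWn (by positivity)
          _ = _ := by
              rw [h1u, hz, ← Real.rpow_mul_natCast (by norm_num), ← Real.rpow_mul_natCast
                (by norm_num), ← Real.rpow_add (by norm_num)]
              congr 1
              ring
      rw [if_pos ⟨hab, hcop⟩]
      linarith
    · -- a common prime factor
      obtain ⟨p, hp, hpa, hpb⟩ := Nat.Prime.not_coprime_iff_dvd.1 hcop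
      have hpw : w < p := hGa.2 p hp hpa
      have hpT : p ≤ T := (Nat.le_of_dvd (by omega) hpa).trans (mem_Icc.1 ha).2
      have hmem : p ∈ (Ioc w T).filter Nat.Prime := by
        rw [mem_filter, mem_Ioc]
        exact ⟨⟨hpw, hpT⟩, hp⟩
      have h4 : V K a b ≤ ∑ p ∈ (Ioc w T).filter Nat.Prime,
          (if p ∣ a ∧ p ∣ b ∧ a ≠ b then V K a b else 0) := by
        refine le_trans (le_of_eq ?_) (single_le_sum (f := fun p =>
          (if p ∣ a ∧ p ∣ b ∧ a ≠ b then V K a b else 0)) (fun q _ => ?_) hmem)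
        · rw [if_pos ⟨hpa, hpb, hab⟩]
        · split_ifs
          · exact hVn a b
          · exact le_rfl
      have h5 : WW A K0 T u a b ≤ V K a b := by
        refine hsub.2.trans ?_
        unfold V
        rw [h1u]
        exact pow_le_pow_left₀ (by positivity) hK _
      linarith

/-- the sum of the pointwise estimates -/
theorem total {A K0 T K : ℕ} (hT : 1 ≤ T) {s : ℝ} (hs : 0 < s) (hK : (2 : ℝ) ^ s ≤ (K : ℝ) + 1) :
    ∑ e ∈ ME A K0 T, ((2 : ℝ) ^ s - 1) ^ e.primeFactors.card *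
      (2 ^ e.primeFactors.card / (e : ℝ)) * (AE ((2 : ℝ) ^ (-s)) (wT A T) T e) ^ 2 ≤
      MS s T + T * ((T : ℝ) ^ (1 / 4 : ℝ) * ((2 : ℝ) ^ s) ^ kT K0 T) +
      2 * ((K : ℝ) + 1) * (T : ℝ) ^ 2 * (1 + Real.log T) ^ K * (1 / (wT A T : ℝ)) := by
  classical
  have hz0 : (0 : ℝ) < (2 : ℝ) ^ (-s) := Real.rpow_pos_of_pos (by norm_num) _
  have h2s : 1 ≤ (2 : ℝ) ^ s := Real.one_le_rpow (by norm_num) hs.le
  refine (expand hT hz0 (by linarith) (wT A T)).trans ?_
  refine (sum_le_sum fun a ha => sum_le_sum fun b hb => point hT hs hK ha hb).trans ?_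
  simp only [sum_add_distrib]
  have h1 : ∑ a ∈ Icc 1 T, ∑ b ∈ Icc 1 T, (if a ≠ b ∧ a.Coprime b then
        (2 : ℝ) ^ (s * (((S2 a b).card : ℝ) - (T2 a b).card)) else 0) = MS s T := by
    unfold MS Pr
    rw [sum_filter, sum_product]
  have h2 : ∑ a ∈ Icc 1 T, ∑ b ∈ Icc 1 T,
      (if a = b then (T : ℝ) ^ (1 / 4 : ℝ) * ((2 : ℝ) ^ s) ^ kT K0 T else 0) =
      T * ((T : ℝ) ^ (1 / 4 : ℝ) * ((2 : ℝ) ^ s) ^ kT K0 T) := by
    have : ∀ a ∈ Icc 1 T, ∑ b ∈ Icc 1 T,
        (if a = b then (T : ℝ) ^ (1 / 4 : ℝ) * ((2 : ℝ) ^ s) ^ kT K0 T else 0) =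
        (T : ℝ) ^ (1 / 4 : ℝ) * ((2 : ℝ) ^ s) ^ kT K0 T := by
      intro a ha
      rw [sum_ite_eq, if_pos ha]
    rw [sum_congr rfl this, sum_const, Nat.card_Icc, nsmul_eq_mul, Nat.add_sub_cancel]
  have h3 : ∑ a ∈ Icc 1 T, ∑ b ∈ Icc 1 T, ∑ p ∈ (Ioc (wT A T) T).filter Nat.Prime,
      (if p ∣ a ∧ p ∣ b ∧ a ≠ b then V K a b else 0) ≤
      2 * ((K : ℝ) + 1) * (T : ℝ) ^ 2 * (1 + Real.log T) ^ K * (1 / (wT A T : ℝ)) := by
    have h4 : ∑ a ∈ Icc 1 T, ∑ b ∈ Icc 1 T, ∑ p ∈ (Ioc (wT A T) T).filter Nat.Prime,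
        (if p ∣ a ∧ p ∣ b ∧ a ≠ b then V K a b else 0) =
        ∑ p ∈ (Ioc (wT A T) T).filter Nat.Prime, ∑ a ∈ Icc 1 T, ∑ b ∈ Icc 1 T,
          (if p ∣ a ∧ p ∣ b ∧ a ≠ b then V K a b else 0) := by
      rw [sum_congr rfl fun a _ => sum_comm]
      exact sum_comm
    rw [h4]
    have hlog : 0 ≤ Real.log T := Real.log_natCast_nonneg T
    have hC : 0 ≤ 2 * ((K : ℝ) + 1) * (T : ℝ) ^ 2 * (1 + Real.log T) ^ K := by positivity
    calc ∑ p ∈ (Ioc (wT A T) T).filter Nat.Prime, ∑ a ∈ Icc 1 T, ∑ b ∈ Icc 1 T,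
          (if p ∣ a ∧ p ∣ b ∧ a ≠ b then V K a b else 0)
        ≤ ∑ p ∈ (Ioc (wT A T) T).filter Nat.Prime,
            2 * ((K : ℝ) + 1) * (T : ℝ) ^ 2 * (1 + Real.log T) ^ K * (((p : ℝ) ^ 2)⁻¹) := by
          refine sum_le_sum fun p hp => ?_
          refine (pairs_p K T p (mem_filter.1 hp).2 hT).trans (le_of_eq ?_)
          rw [div_pow]
          ring
      _ = 2 * ((K : ℝ) + 1) * (T : ℝ) ^ 2 * (1 + Real.log T) ^ K *
            ∑ p ∈ (Ioc (wT A T) T).filter Nat.Prime, (((p : ℝ) ^ 2)⁻¹) := by rw [mul_sum]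
      _ ≤ _ := by
          refine mul_le_mul_of_nonneg_left ?_ hC
          refine (sum_le_sum_of_subset_of_nonneg (filter_subset _ _)
            (fun p _ _ => by positivity)).trans ?_
          rcases le_total (wT A T) T with h | h
          · have hw0 : wT A T ≠ 0 := by unfold wT; omega
            refine (sum_Ioc_inv_sq_le_sub hw0 h).trans ?_
            rw [one_div]
            have : (0 : ℝ) ≤ (T : ℝ)⁻¹ := by positivity
            linarith
          · rw [Ioc_eq_empty (by omega), sum_empty]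
            positivity
  rw [h1, h2]
  linarith

theorem expm : EXPM := by
  intro s K0 hs
  obtain ⟨K, hK⟩ := exists_nat_ge ((2 : ℝ) ^ s)
  have hK' : (2 : ℝ) ^ s ≤ (K : ℝ) + 1 := by linarith
  refine ⟨K + 5, fun A hA => ?_⟩
  have h2s : 1 ≤ (2 : ℝ) ^ s := Real.one_le_rpow (by norm_num) hs.le
  have h2s0 : 0 < (2 : ℝ) ^ s := by linarith
  set B : ℝ := s * K0 * Real.log 2 with hB
  have e1 : ∀ᶠ x : ℝ in atTop, ‖Real.log x ^ (B + 4)‖ ≤
      (1 / (2 * (2 : ℝ) ^ s)) * ‖x ^ (3 / 4 : ℝ)‖ :=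
    (isLittleO_log_rpow_rpow_atTop (B + 4) (by norm_num : (0 : ℝ) < 3 / 4)).def (by positivity)
  have e2 : ∀ᶠ x : ℝ in atTop, max 3 (4 * ((K : ℝ) + 1) * 2 ^ K) ≤ Real.log x :=
    Real.tendsto_log_atTop.eventually_ge_atTop _
  obtain ⟨T0, hT0⟩ := eventually_atTop.1 (tendsto_natCast_atTop_atTop.eventually (e1.and e2))
  refine ⟨T0 + 1, fun T hT => ?_⟩
  obtain ⟨h1, h2⟩ := hT0 T (by omega)
  have hT1 : 1 ≤ T := by omega
  have hTr : (1 : ℝ) ≤ T := by exact_mod_cast hT1
  have hT0' : (0 : ℝ) < T := by linarith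
  set L := Real.log T with hL
  have hL3 : 3 ≤ L := (le_max_left _ _).trans h2
  have hL0 : 0 < L := by linarith
  have hLK : 4 * ((K : ℝ) + 1) * 2 ^ K ≤ L := (le_max_right _ _).trans h2
  have hLL : 0 < Real.log L := Real.log_pos (by linarith)
  refine (total hT1 hs hK').trans ?_
  -- the diagonal
  have hd : (T : ℝ) * ((T : ℝ) ^ (1 / 4 : ℝ) * ((2 : ℝ) ^ s) ^ kT K0 T) ≤
      (T : ℝ) ^ 2 / (2 * L ^ 4) := by
    have hk : (kT K0 T : ℝ) ≤ K0 * Real.log L + 1 := by
      unfold kT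
      push_cast
      have := Nat.floor_le (show 0 ≤ (K0 : ℝ) * Real.log (Real.log T) by
        rw [← hL]; positivity)
      linarith
    have h3 : ((2 : ℝ) ^ s) ^ kT K0 T ≤ (2 : ℝ) ^ s * L ^ B := by
      rw [← Real.rpow_natCast ((2 : ℝ) ^ s)]
      calc ((2 : ℝ) ^ s) ^ (kT K0 T : ℝ) ≤ ((2 : ℝ) ^ s) ^ ((K0 : ℝ) * Real.log L + 1) :=
            Real.rpow_le_rpow_of_exponent_le h2s hk
        _ = (2 : ℝ) ^ s * L ^ B := by
            rw [Real.rpow_add h2s0, Real.rpow_one, mul_comm]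
            congr 1
            rw [← Real.rpow_mul (by norm_num), Real.rpow_def_of_pos (by norm_num),
              Real.rpow_def_of_pos hL0, hB]
            congr 1
            ring
    have h4 : 2 * ((2 : ℝ) ^ s * L ^ B) * L ^ 4 ≤ (T : ℝ) ^ (3 / 4 : ℝ) := by
      rw [Real.norm_of_nonneg (by positivity), Real.norm_of_nonneg (by positivity)] at h1
      have h5 : L ^ (B + 4) = L ^ B * L ^ 4 := by
        rw [Real.rpow_add hL0]
        congr 1
        exact_mod_cast Real.rpow_natCast L 4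
      rw [h5] at h1
      calc 2 * ((2 : ℝ) ^ s * L ^ B) * L ^ 4 = (2 * (2 : ℝ) ^ s) * (L ^ B * L ^ 4) := by ring
        _ ≤ (2 * (2 : ℝ) ^ s) * ((1 / (2 * (2 : ℝ) ^ s)) * (T : ℝ) ^ (3 / 4 : ℝ)) := by gcongr
        _ = _ := by field_simp
    rw [le_div_iff₀ (by positivity)]
    calc (T : ℝ) * ((T : ℝ) ^ (1 / 4 : ℝ) * ((2 : ℝ) ^ s) ^ kT K0 T) * (2 * L ^ 4)
        ≤ (T : ℝ) * ((T : ℝ) ^ (1 / 4 : ℝ) * ((2 : ℝ) ^ s * L ^ B)) * (2 * L ^ 4) := by gcongr
      _ = (T : ℝ) * (T : ℝ) ^ (1 / 4 : ℝ) * (2 * ((2 : ℝ) ^ s * L ^ B) * L ^ 4) := by ring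
      _ ≤ (T : ℝ) * (T : ℝ) ^ (1 / 4 : ℝ) * (T : ℝ) ^ (3 / 4 : ℝ) := by gcongr
      _ = (T : ℝ) ^ 2 := by
          rw [mul_assoc, ← Real.rpow_add hT0', show (1 / 4 : ℝ) + 3 / 4 = 1 by norm_num,
            Real.rpow_one]
          ring
  -- the common factors
  have hc : 2 * ((K : ℝ) + 1) * (T : ℝ) ^ 2 * (1 + L) ^ K * (1 / (wT A T : ℝ)) ≤
      (T : ℝ) ^ 2 / (2 * L ^ 4) := by
    have hw : L ^ (K + 5) ≤ (wT A T : ℝ) := by
      have h3 : L ^ A < (⌊L ^ A⌋₊ : ℝ) + 1 := Nat.lt_floor_add_one _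
      have h4 : L ^ (K + 5) ≤ L ^ A := pow_le_pow_right₀ (by linarith) hA
      unfold wT
      push_cast
      rw [← hL]
      linarith
    have hw0 : 0 < (wT A T : ℝ) := lt_of_lt_of_le (by positivity) hw
    rw [mul_one_div, div_le_div_iff₀ hw0 (by positivity)]
    have h5 : (1 + L) ^ K ≤ 2 ^ K * L ^ K := by
      rw [← mul_pow]
      exact pow_le_pow_left₀ (by positivity) (by linarith) _
    calc 2 * ((K : ℝ) + 1) * (T : ℝ) ^ 2 * (1 + L) ^ K * (2 * L ^ 4)
        ≤ 2 * ((K : ℝ) + 1) * (T : ℝ) ^ 2 * (2 ^ K * L ^ K) * (2 * L ^ 4) := by gcongr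
      _ = (T : ℝ) ^ 2 * ((4 * ((K : ℝ) + 1) * 2 ^ K) * L ^ (K + 4)) := by
          rw [pow_add]; ring
      _ ≤ (T : ℝ) ^ 2 * (L * L ^ (K + 4)) := by gcongr
      _ = (T : ℝ) ^ 2 * L ^ (K + 5) := by ring
      _ ≤ (T : ℝ) ^ 2 * (wT A T : ℝ) := by gcongr
  have h6 : (T : ℝ) ^ 2 / (2 * L ^ 4) + (T : ℝ) ^ 2 / (2 * L ^ 4) = (T : ℝ) ^ 2 / L ^ 4 := by
    field_simp
    ring
  linarith

end Pool.Agent.H286.MX
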