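import Pool.Agent.H514.KS.Ker
import Pool.Graph.R_pool_sql_team_seeded_f72693b1.W307.IM.Stm

/-!
MX-4b. The local conditions. Files (on origin/main): `Pool/Agent/H514/KS/{Loc,LocQ,LocR,Cls,Ver}.lean`,
and `Pool/Graph/R_pool_sql_team_seeded_f72693b1/W307/IM/Stm.lean` (`cA`, `cB`; `team-store fetch`).

`e = ![-(a + b), 2 a - b, 2 b - a]`; `e 0 - e 1 = - 3 a`, `e 0 - e 2 = - 3 b`, `e 1 - e 2 = 3 (a - b)`.
The integers of the class of `v` are `dk 0 = 1`, `dk 1 = dk 2 = m = ∏ p ^ (v p).val` (`KS/Cls.lean`).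

PROOF. `IsS W f` means: `f ∈ Z1 (gact W)` (`Fv_coc`, `Fv_lc` as in `FL_Z1`) and `LocT W ℚ_[p] f` for all
primes `p`, `LocT W ℝ f`. `LocT W K f` follows from `LocTN W K (FL W e jj P ⊥ v)` (`L = ⊥`; every
`σ ∈ GQ` is in `fixG ⊥`: the definitions `LocI` and `LocN` agree up to `inG`), for which the lemmas
`loc_sol3`, `loc_sq2` (`KS/LocQ.lean`) apply exactly as in `ver_p`, `ver_r` of `KS/Ver.lean`. Cases:
* real place: as `ver_r` (positive integers are squares in `ℝ`).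
* `q = 2`: `m ≡ 1 mod 8` is a square in `ℚ_2` (see how `ver_p` / `sq_small` do this), `loc_sq2`.
* `q` odd, `q < 29` or `q ∣ a b`: `(m / q) = 1`, so `m` is a square in `ℚ_q` (`sq_of_leg`), `loc_sq2`.
* `q ≥ 29`, `q ∤ a b`, `q ∣ a - b`, `v q ≠ 0` (so `q ∈ P`, `m = q m'`, `q ∤ m'`, as `m` is squarefree):
  if `q² ∤ a - b` use `ram_split` for the triple `(e 1, e 2, e 0)` with `dc = 1`: it needs
  `legendreSym q (e 1 - e 0) = legendreSym q (3 a) = 1`. If `q² ∣ a - b` use `ram_gen` with `t = m'`,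
  `k = (e 1 - e 2) / q ≡ 0 mod q`: `t da = m'^2`, `(t + k) db ≡ m'^2 mod q`, `e 1 + q t - e 0 ≡ 3 a mod q`
  are squares in `ℚ_q` by Hensel (`sq_of_leg`).
* `q ≥ 29`, `q ∤ a b`, `q ∣ a - b`, `q ∤ m`: `unr_split` for `(e 1, e 2, e 0)`, `dc = 1`.
* `q ≥ 29`, `q ∤ a b (a - b)`: `sol_good` (all differences are prime to `q`, as `q ≠ 3`; `q ∤ m` because
  all the `p ∈ P` divide `a - b`).
-/

set_option autoImplicit false

open scoped Classical

namespace Pool.Agent.H514.MX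

open Finset WeierstrassCurve Pool.Agent.W262.SH Pool.Agent.H514.KS
open Pool.Agent.W307.IM (cA cB)

theorem rr_ab {a b : ℤ} (ha : a ≠ 0) (hb : b ≠ 0) (hab : a ≠ b) :
    RR (⟨0, 0, 0, (cA a b : ℚ), (cB a b : ℚ)⟩ : WeierstrassCurve ℚ)
      ![-(a + b), 2 * a - b, 2 * b - a] := by
  intro L _ _
  have hcz := charZ L
  have e0 : (![-(a + b), 2 * a - b, 2 * b - a] : Fin 3 → ℤ) 0 = -(a + b) := rfl
  have e1 : (![-(a + b), 2 * a - b, 2 * b - a] : Fin 3 → ℤ) 1 = 2 * a - b := rfl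
  have e2 : (![-(a + b), 2 * a - b, 2 * b - a] : Fin 3 → ℤ) 2 = 2 * b - a := rfl
  rw [e0, e1, e2]
  refine ⟨?_, ?_, ?_, ?_, ?_, two_ne_zero, ?_, ?_, ?_⟩
  · show algebraMap ℚ L 0 = 0
    exact map_zero _
  · show algebraMap ℚ L 0 = _
    rw [map_zero]
    push_cast
    ring
  · show algebraMap ℚ L 0 = 0
    exact map_zero _
  · show algebraMap ℚ L (cA a b : ℚ) = _
    rw [map_intCast]
    unfold cA
    push_cast
    ring
  · show algebraMap ℚ L (cB a b : ℚ) = _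
    rw [map_intCast]
    unfold cB
    push_cast
    ring
  · intro h
    have h1 : -(a + b) = 2 * a - b := by exact_mod_cast h
    omega
  · intro h
    have h1 : -(a + b) = 2 * b - a := by exact_mod_cast h
    omega
  · intro h
    have h1 : 2 * a - b = 2 * b - a := by exact_mod_cast h
    omega

/-- from the trivial extension to the rational numbers -/
theorem locT_of {W : WeierstrassCurve ℚ} {K : Type} [Field K] [Algebra ℚ K] {e : Fin 3 → ℤ}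
    {jj : ℕ → Fin 3} {P : Finset ℕ} {v : P → ZMod 2} (h : LocTN W K (FL W e jj P ⊥ v)) :
    LocT W K (Fv W e jj P v) := by
  intro ι
  obtain ⟨R, hR⟩ := h ι
  refine ⟨R, fun τ σ hc => ?_⟩
  have hσ : σ ∈ fixG (⊥ : IntermediateField ℚ QB) := by
    refine (IntermediateField.mem_fixingSubgroup_iff (⊥ : IntermediateField ℚ QB) σ).2 ?_
    intro x hx
    obtain ⟨y, rfl⟩ := IntermediateField.mem_bot.1 hx
    exact σ.commutes y
  exact hR τ ⟨σ, hσ⟩ hc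

theorem dk_zero (P : Finset ℕ) (v : P → ZMod 2) : dk (fun _ => 0) P 0 v = 1 := by
  unfold dk
  exact Finset.prod_eq_one fun p _ => by rw [if_pos rfl, one_pow]

theorem dk_one_two (P : Finset ℕ) (v : P → ZMod 2) :
    dk (fun _ => 0) P 2 v = dk (fun _ => 0) P 1 v := by
  unfold dk
  refine Finset.prod_congr rfl fun p _ => ?_
  rw [if_neg (show ¬ (0 : Fin 3) = 2 by decide), if_neg (show ¬ (0 : Fin 3) = 1 by decide)]

/-- the integer at a prime of the set -/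
theorem dk_ram4 {P : Finset ℕ} (hP : ∀ p ∈ P, p.Prime) (v : P → ZMod 2) {q : ℕ} (hq : q ∈ P)
    (h : v ⟨q, hq⟩ ≠ 0) :
    ∃ m : ℤ, ((dk (fun _ => 0) P 1 v : ℕ) : ℤ) = q * m ∧ ¬ (q : ℤ) ∣ m := by
  refine ⟨∏ p ∈ Finset.univ.erase (⟨q, hq⟩ : P), ((p : ℕ) : ℤ) ^ (v p).val, ?_, ?_⟩
  · unfold dk
    push_cast
    rw [← Finset.mul_prod_erase Finset.univ _ (Finset.mem_univ (⟨q, hq⟩ : P))]
    rw [(val01 _).1 h, pow_one]
  · have hqp := hP q hq
    rw [(Nat.prime_iff_prime_int.1 hqp).dvd_finsetProd_iff]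
    rintro ⟨p, hp, h1⟩
    have h2 := (Nat.prime_iff_prime_int.1 hqp).dvd_of_dvd_pow h1
    have h3 : q ∣ (p : ℕ) := by exact_mod_cast h2
    exact (Finset.mem_erase.1 hp).1 (Subtype.ext
        ((Nat.prime_dvd_prime_iff_eq hqp (hP p p.2)).1 h3).symm)

theorem loc_p {a b : ℤ} (ha : a ≠ 0) (hb : b ≠ 0) (hab : a ≠ b) (hc : IsCoprime a b)
    {P : Finset ℕ}
    (hP : ∀ p ∈ P, p.Prime ∧ 29 ≤ p ∧ (p : ℤ) ∣ a - b ∧ jacobiSym (3 * a) p = 1)
    {v : P → ZMod 2} (h8 : dk (fun _ => 0) P 1 v % 8 = 1)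
    (hq : ∀ q : ℕ, q.Prime → q ≠ 2 → (q < 29 ∨ (q : ℤ) ∣ a * b) →
      jacobiSym (dk (fun _ => 0) P 1 v) q = 1) (p : ℕ) [hp : Fact p.Prime] :
    LocTN (⟨0, 0, 0, (cA a b : ℚ), (cB a b : ℚ)⟩ : WeierstrassCurve ℚ) ℚ_[p]
      (FL (⟨0, 0, 0, (cA a b : ℚ), (cB a b : ℚ)⟩ : WeierstrassCurve ℚ)
        ![-(a + b), 2 * a - b, 2 * b - a] (fun _ => 0) P ⊥ v) := by
  intro ι
  have hR := rr_ab ha hb hab
  set W : WeierstrassCurve ℚ := ⟨0, 0, 0, (cA a b : ℚ), (cB a b : ℚ)⟩ with hW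
  set e : Fin 3 → ℤ := ![-(a + b), 2 * a - b, 2 * b - a] with he
  have e0 : e 0 = -(a + b) := rfl
  have e1 : e 1 = 2 * a - b := rfl
  have e2 : e 2 = 2 * b - a := rfl
  have hPp : ∀ p ∈ P, p.Prime := fun p hp => (hP p hp).1
  have hf2 : ∀ σ, FL W e (fun _ => 0) P ⊥ v σ + FL W e (fun _ => 0) P ⊥ v σ = 0 :=
    fun σ => Fv_two hR v (inG ⊥ σ)
  have hu : ∀ k, uk (fun _ => 0) P k v ^ 2 = (((dk (fun _ => 0) P k v : ℕ) : ℤ) : QB) :=
    fun k => uk_sq k v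
  have hsg : ∀ (k : Fin 3) (σ : Gal ⊥), inG ⊥ σ (uk (fun _ => 0) P k v) =
      Pool.Agent.TH344.SH.sg (e k : QB) (FL W e (fun _ => 0) P ⊥ v σ) *
        uk (fun _ => 0) P k v := fun k σ => sg_Fv hR k v (inG ⊥ σ)
  have hpi := Nat.prime_iff_prime_int.1 hp.out
  obtain ⟨m, hm⟩ : ∃ m : ℤ, m = ((dk (fun _ => 0) P 1 v : ℕ) : ℤ) := ⟨_, rfl⟩
  have d0 : ((dk (fun _ => 0) P 0 v : ℕ) : ℤ) = 1 := by rw [dk_zero]; rfl
  have d1 : ((dk (fun _ => 0) P 1 v : ℕ) : ℤ) = m := hm.symm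
  have d2 : ((dk (fun _ => 0) P 2 v : ℕ) : ℤ) = m := by rw [dk_one_two, hm]
  have hm0 : m ≠ 0 := by
    rw [hm]
    have := dk_pos (jj := fun _ => 0) hPp 1 v
    exact_mod_cast this.ne'
  have hsol : Sol3 ℚ_[p] ⊥ ι (e 0) (e 1) (e 2) 1 m m →
      LocN W (K := ℚ_[p]) ι (FL W e (fun _ => 0) P ⊥ v) := fun h => by
    refine loc_sol3 hR.rts hf2 (d1 := ((dk (fun _ => 0) P 0 v : ℕ) : ℤ))
      (d2 := ((dk (fun _ => 0) P 1 v : ℕ) : ℤ)) (d3 := m) (s := m) hm0 ?_ (hu 0) (hu 1) (hsg 0)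
      (hsg 1) ?_
    · rw [d0, d1, one_mul]
    · rw [d0, d1]
      exact h
  have hsq : IsSquare ((m : ℤ) : ℚ_[p]) →
      LocN W (K := ℚ_[p]) ι (FL W e (fun _ => 0) P ⊥ v) := fun h => by
    refine loc_sq2 hR.rts hf2 (d1 := ((dk (fun _ => 0) P 0 v : ℕ) : ℤ))
      (d2 := ((dk (fun _ => 0) P 1 v : ℕ) : ℤ)) ?_ ?_ (hu 0) (hu 1) (hsg 0) (hsg 1) ?_ ?_
    · rw [d0]
      exact one_ne_zero
    · rw [d1]
      exact hm0
    · rw [d0]
      refine Sqr.of_sq ⟨1, ?_⟩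
      rw [Int.cast_one, mul_one]
    · rw [d1]
      exact Sqr.of_sq h
  by_cases hp2 : p = 2
  · subst hp2
    apply hsq
    apply Pool.Agent.H514.IS.sq_two
    rw [hm]
    omega
  by_cases hsm : p < 29 ∨ (p : ℤ) ∣ a * b
  · apply hsq
    apply Pool.Agent.H514.IS.sq_of_leg hp2
    rw [jacobiSym.legendreSym.to_jacobiSym, hm]
    exact hq p hp.out hp2 hsm
  push Not at hsm
  obtain ⟨hp29, hpab⟩ := hsm
  have hp3 : ¬ (p : ℤ) ∣ 3 := by
    intro h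
    have h1 : p ∣ 3 := by exact_mod_cast h
    have := Nat.le_of_dvd (by norm_num) h1
    omega
  have hpa : ¬ (p : ℤ) ∣ a := fun h => hpab (h.mul_right b)
  have hpb : ¬ (p : ℤ) ∣ b := fun h => hpab (h.mul_left a)
  have h10 : ¬ (p : ℤ) ∣ e 1 - e 0 := by
    rw [e1, e0]
    have h1 : 2 * a - b - -(a + b) = 3 * a := by ring
    rw [h1]
    intro h
    rcases hpi.dvd_or_dvd h with h2 | h2
    · exact hp3 h2
    · exact hpa h2
  apply hsol
  by_cases hpd : (p : ℤ) ∣ a - b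
  · obtain ⟨k', hk'⟩ := hpd
    have h12 : e 1 - e 2 = p * (3 * k') := by
      rw [e1, e2]
      linear_combination 3 * hk'
    by_cases hpm : (p : ℤ) ∣ m
    · have hpm' : p ∣ dk (fun _ => 0) P 1 v := by
        rw [hm] at hpm
        exact_mod_cast hpm
      rw [dk_dvd hPp 1 v hp.out] at hpm'
      obtain ⟨hpP, -, hv⟩ := hpm'
      obtain ⟨m', hm1, hm2⟩ := dk_ram4 hPp v hpP hv
      rw [← hm] at hm1
      have h3a : legendreSym p (3 * a) = 1 := by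
        rw [jacobiSym.legendreSym.to_jacobiSym]
        exact (hP p hpP).2.2.2
      have h3a' : legendreSym p ((e 1 - e 0) * 1) = 1 := by
        have h1 : (e 1 - e 0) * 1 = 3 * a := by
          rw [e1, e0]
          ring
        rw [h1]
        exact h3a
      rw [hm1]
      apply Sol3.rot
      by_cases hk : (p : ℤ) ∣ 3 * k'
      · refine ram_gen (k := 3 * k') (t := m') h12 hm2 ?_ h10 (Sqr.of_sq ⟨(m' : ℚ_[p]), ?_⟩)
          (Sqr.of_sq (Pool.Agent.H514.IS.sq_of_leg hp2 ?_))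
          (Sqr.of_sq (Pool.Agent.H514.IS.sq_of_leg hp2 ?_))
        · intro h
          exact hm2 ((dvd_add_left hk).1 h)
        · push_cast
          rfl
        · refine (leg_congr ?_).trans (leg_mul_self hm2)
          have h1 : (m' + 3 * k') * m' - m' * m' = 3 * k' * m' := by ring
          rw [h1]
          exact hk.mul_right _
        · refine (leg_congr ?_).trans h3a'
          have h1 : (e 1 + p * m' - e 0) * 1 - (e 1 - e 0) * 1 = p * m' := by ring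
          rw [h1]
          exact dvd_mul_right _ _
      · exact ram_split (by omega) h12 hk h10 hm2 hm2 h3a'
    · apply Sol3.rot
      refine unr_split (by omega) ⟨3 * k', h12⟩ h10 hpm hpm (mul_one _) ?_
      exact legendreSym.at_one p
  · have hpm : ¬ (p : ℤ) ∣ m := by
      intro hpm
      have hpm' : p ∣ dk (fun _ => 0) P 1 v := by
        rw [hm] at hpm
        exact_mod_cast hpm
      rw [dk_dvd hPp 1 v hp.out] at hpm'
      obtain ⟨hpP, -, hv⟩ := hpm'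
      exact hpd (hP p hpP).2.2.1
    refine sol_good hp29 ?_ ?_ ?_ ?_ hpm hpm (s := m) ?_
    · intro h
      apply h10
      have h1 : e 1 - e 0 = -(e 0 - e 1) := by ring
      rw [h1]
      exact h.neg_right
    · rw [e0, e2]
      intro h
      have h1 : -(a + b) - (2 * b - a) = -(3 * b) := by ring
      rw [h1, dvd_neg] at h
      rcases hpi.dvd_or_dvd h with h2 | h2
      · exact hp3 h2
      · exact hpb h2
    · rw [e1, e2]
      intro h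
      have h1 : 2 * a - b - (2 * b - a) = 3 * (a - b) := by ring
      rw [h1] at h
      rcases hpi.dvd_or_dvd h with h2 | h2
      · exact hp3 h2
      · exact hpd h2
    · intro h
      exact hpi.not_isUnit (isUnit_of_dvd_one h)
    · rw [one_mul]

theorem loc_r {a b : ℤ} (ha : a ≠ 0) (hb : b ≠ 0) (hab : a ≠ b)
    {P : Finset ℕ} (hP : ∀ p ∈ P, p.Prime) (v : P → ZMod 2) :
    LocTN (⟨0, 0, 0, (cA a b : ℚ), (cB a b : ℚ)⟩ : WeierstrassCurve ℚ) ℝ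
      (FL (⟨0, 0, 0, (cA a b : ℚ), (cB a b : ℚ)⟩ : WeierstrassCurve ℚ)
        ![-(a + b), 2 * a - b, 2 * b - a] (fun _ => 0) P ⊥ v) := by
  intro ι
  have hR := rr_ab ha hb hab
  have hpos : ∀ k, 0 < ((dk (fun _ => 0) P k v : ℕ) : ℤ) := fun k => by
    have := dk_pos (jj := fun _ => 0) hP k v
    exact_mod_cast this
  have hq : ∀ k, Sqr ⊥ ι ((((dk (fun _ => 0) P k v : ℕ) : ℤ)) : ℝ) := fun k => by
    refine Sqr.of_sq ⟨Real.sqrt (((dk (fun _ => 0) P k v : ℕ) : ℤ) : ℝ), ?_⟩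
    have : (0 : ℝ) ≤ (((dk (fun _ => 0) P k v : ℕ) : ℤ) : ℝ) := by exact_mod_cast (hpos k).le
    exact (Real.mul_self_sqrt this).symm
  exact loc_sq2 hR.rts (fun σ => Fv_two hR v (inG ⊥ σ)) (hpos 0).ne' (hpos 1).ne' (uk_sq 0 v)
    (uk_sq 1 v) (fun σ => sg_Fv hR 0 v (inG ⊥ σ)) (fun σ => sg_Fv hR 1 v (inG ⊥ σ)) (hq 0) (hq 1)

theorem loc_ab {a b : ℤ} (ha : a ≠ 0) (hb : b ≠ 0) (hab : a ≠ b) (hc : IsCoprime a b)
    {P : Finset ℕ}
    (hP : ∀ p ∈ P, p.Prime ∧ 29 ≤ p ∧ (p : ℤ) ∣ a - b ∧ jacobiSym (3 * a) p = 1)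
    {v : P → ZMod 2} (h8 : dk (fun _ => 0) P 1 v % 8 = 1)
    (hq : ∀ q : ℕ, q.Prime → q ≠ 2 → (q < 29 ∨ (q : ℤ) ∣ a * b) →
      jacobiSym (dk (fun _ => 0) P 1 v) q = 1) :
    IsS (⟨0, 0, 0, (cA a b : ℚ), (cB a b : ℚ)⟩ : WeierstrassCurve ℚ)
      (Fv (⟨0, 0, 0, (cA a b : ℚ), (cB a b : ℚ)⟩ : WeierstrassCurve ℚ)
        ![-(a + b), 2 * a - b, 2 * b - a] (fun _ => 0) P v) :=
  ⟨⟨Fv_lc v, Fv_coc (rr_ab ha hb hab) (fun p hp => (hP p hp).1.ne_zero) v⟩,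
    fun p _ => locT_of (loc_p ha hb hab hc hP h8 hq p),
    locT_of (loc_r ha hb hab (fun p hp => (hP p hp).1) v)⟩

end Pool.Agent.H514.MX
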