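import Pool.Agent.H514.KS.Ker

/-!
MX-4c. A subspace given by quadratic residue conditions.
-/

set_option autoImplicit false

open scoped Classical

namespace Pool.Agent.H514.MX

open Finset Pool.Agent.H514.KS

/-- the integers of the vector, for one class -/
theorem MX4c_dk (P : Finset ℕ) (v : P → ZMod 2) :
    dk (fun _ => 0) P 1 v = Pool.Agent.H514.IS.dd P v := by
  unfold dk Pool.Agent.H514.IS.dd
  refine Finset.prod_congr rfl fun p _ => ?_
  rw [if_neg (show ¬ ((0 : Fin 3) = 1) by decide)]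

theorem lin_ab (P Q : Finset ℕ) (hP : ∀ p ∈ P, p.Prime ∧ 29 ≤ p)
    (hQ : ∀ q ∈ Q, q.Prime ∧ q ≠ 2) (hPQ : Disjoint P Q) :
    ∃ V : Submodule (ZMod 2) (P → ZMod 2), 2 ^ P.card ≤ 2 ^ (Q.card + 2) * Nat.card V ∧
      ∀ v ∈ V, dk (fun _ => 0) P 1 v % 8 = 1 ∧
        ∀ q ∈ Q, jacobiSym (dk (fun _ => 0) P 1 v) q = 1 := by
  have hodd : ∀ p ∈ P, p % 2 = 1 := fun p hp => by
    obtain ⟨h1, h2⟩ := hP p hp
    rcases h1.eq_two_or_odd with h | h <;> omega
  obtain ⟨K, hK⟩ : ∃ K : Finset ℕ, K = {1, 2} ∪ Q := ⟨_, rfl⟩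
  have hKc : K.card ≤ Q.card + 2 := by
    rw [hK]
    refine (card_union_le _ _).trans ?_
    have h1 : ({1, 2} : Finset ℕ).card ≤ 2 := card_le_two
    omega
  have hcop : ∀ p ∈ P, ∀ k ∈ K, Nat.Coprime p k := by
    intro p hp k hk
    rw [hK, mem_union, mem_insert, mem_singleton] at hk
    rcases hk with (hk | hk) | hk
    · rw [hk]; exact Nat.coprime_one_right p
    · rw [hk, Nat.coprime_comm, Nat.Prime.coprime_iff_not_dvd Nat.prime_two]
      intro h
      have := hodd p hp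
      omega
    · rw [Nat.coprime_primes (hP p hp).1 (hQ k hk).1]
      intro h
      exact (Finset.disjoint_left.1 hPQ hp) (h ▸ hk)
  refine ⟨LinearMap.ker (Pool.Agent.H514.IS.Lf P K), ?_, fun v hv => ?_⟩
  · have h1 := Pool.Agent.H514.IS.ker_card P K
    have h2 : Nat.card (LinearMap.ker (Pool.Agent.H514.IS.Lf P K)) =
        2 ^ Module.finrank (ZMod 2) (LinearMap.ker (Pool.Agent.H514.IS.Lf P K)) := by
      rw [Module.natCard_eq_pow_finrank (K := ZMod 2), Nat.card_zmod]
    rw [h2, ← pow_add]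
    exact Nat.pow_le_pow_right (by norm_num) (by omega)
  · have hsg : ∀ k ∈ K, Pool.Agent.H514.IS.sg k (Pool.Agent.H514.IS.dd P v) = 1 := fun k hk =>
      Pool.Agent.H514.IS.sg_ker hodd hcop hv hk
    rw [MX4c_dk]
    have h1 := hsg 1 (by rw [hK]; exact mem_union_left _ (mem_insert_self _ _))
    have h2 := hsg 2 (by
      rw [hK]
      exact mem_union_left _ (mem_insert_of_mem (mem_singleton_self _)))
    refine ⟨?_, fun q hq => ?_⟩
    · unfold Pool.Agent.H514.IS.sg at h1 h2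
      rw [if_pos rfl] at h1
      rw [if_neg (by norm_num), if_pos rfl] at h2
      rw [ZMod.χ₄_nat_eq_if_mod_four] at h1
      rw [ZMod.χ₈_nat_eq_if_mod_eight] at h2
      split_ifs at h1 h2 <;> omega
    · have h3 := hsg q (by rw [hK]; exact mem_union_right _ hq)
      unfold Pool.Agent.H514.IS.sg at h3
      rwa [if_neg (hQ q hq).1.one_lt.ne', if_neg (hQ q hq).2] at h3

end Pool.Agent.H514.MX
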