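import Pool.Agent.H514.MX.M6
import Pool.Agent.H514.MX.M4b
import Pool.Agent.H514.MX.M4c

/-! Lower bound of the 2-Selmer group of the curves of the family. -/

set_option autoImplicit false

open scoped Classical

namespace Pool.Agent.H514.MX

open Finset WeierstrassCurve Pool.Agent.W262.SH Pool.Agent.H514.KS Pool.Agent.W307.IM

theorem sel_low {a b : ℤ} (ha : a ≠ 0) (hb : b ≠ 0) (hab : a ≠ b) (hc : IsCoprime a b)
    (hf : Finite (Sha2 (⟨0, 0, 0, (cA a b : ℚ), (cB a b : ℚ)⟩ : WeierstrassCurve ℚ)))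
    (h0 : 4 * (cA a b) ^ 3 + 27 * (cB a b) ^ 2 ≠ 0) :
    2 ^ (Pool.Agent.W307.IM.S2 a b).card ≤ 2 ^ ((Pool.Agent.W307.IM.T2 a b).card + 17) *
      Nat.card (Pool.Agent.H514.MX.Sel2 (⟨0, 0, 0, (cA a b : ℚ), (cB a b : ℚ)⟩ : WeierstrassCurve ℚ)) := by
  have hR := rr_ab ha hb hab
  set P : Finset ℕ := (Pool.Agent.W307.IM.S2 a b).filter (fun p => 29 ≤ p) with hP
  set Q : Finset ℕ := Pool.Agent.W307.IM.T2 a b ∪ {3, 5, 7, 11, 13, 17, 19, 23} with hQ
  have hP' : ∀ p ∈ P, p.Prime ∧ 29 ≤ p ∧ (p : ℤ) ∣ a - b ∧ jacobiSym (3 * a) p = 1 := by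
    intro p hp
    rw [hP, mem_filter] at hp
    unfold Pool.Agent.W307.IM.S2 at hp
    rw [mem_filter, Nat.mem_primeFactors] at hp
    obtain ⟨⟨⟨h1, h2, -⟩, -, h4⟩, h5⟩ := hp
    exact ⟨h1, h5, Int.natCast_dvd.2 h2, h4⟩
  have hQ' : ∀ q ∈ Q, q.Prime ∧ q ≠ 2 := by
    intro q hq
    rw [hQ, mem_union] at hq
    rcases hq with hq | hq
    · unfold Pool.Agent.W307.IM.T2 at hq
      rw [mem_filter, Nat.mem_primeFactors] at hq
      exact ⟨hq.1.1, by omega⟩
    · simp only [mem_insert, mem_singleton] at hq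
      rcases hq with rfl | rfl | rfl | rfl | rfl | rfl | rfl | rfl <;> norm_num
  have hPQ : Disjoint P Q := by
    rw [disjoint_left]
    intro p hp hq
    obtain ⟨h1, h2, h3, -⟩ := hP' p hp
    rw [hQ, mem_union] at hq
    rcases hq with hq | hq
    · unfold Pool.Agent.W307.IM.T2 at hq
      rw [mem_filter, Nat.mem_primeFactors] at hq
      have h4 : (p : ℤ) ∣ a * b := Int.natCast_dvd.2 hq.1.2.1
      have hp' : Prime (p : ℤ) := Nat.prime_iff_prime_int.1 h1
      have h5 : (p : ℤ) ∣ a ∧ (p : ℤ) ∣ b := by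
        rcases hp'.dvd_or_dvd h4 with h | h
        · exact ⟨h, by have := dvd_sub h h3; simpa using this⟩
        · exact ⟨by have := dvd_add h3 h; simpa using this, h⟩
      exact hp'.not_isUnit (hc.isUnit_of_dvd' h5.1 h5.2)
    · simp only [mem_insert, mem_singleton] at hq
      omega
  obtain ⟨V, hV1, hV2⟩ := lin_ab P Q (fun p hp => ⟨(hP' p hp).1, (hP' p hp).2.1⟩) hQ' hPQ
  have hsn : ∀ v ∈ V, IsS (⟨0, 0, 0, (cA a b : ℚ), (cB a b : ℚ)⟩ : WeierstrassCurve ℚ)
      (Fv (⟨0, 0, 0, (cA a b : ℚ), (cB a b : ℚ)⟩ : WeierstrassCurve ℚ)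
        ![-(a + b), 2 * a - b, 2 * b - a] (fun _ => 0) P v) := by
    intro v hv
    refine loc_ab ha hb hab hc hP' (hV2 v hv).1 ?_
    intro q hq1 hq2 hq3
    refine (hV2 v hv).2 q ?_
    rw [hQ, mem_union]
    by_cases h5 : q < 29
    · right
      simp only [mem_insert, mem_singleton]
      interval_cases q <;> first | omega | (exfalso; revert hq1; decide)
    · left
      have h6 : (q : ℤ) ∣ a * b := by
        rcases hq3 with h | h
        · exact absurd h h5
        · exact h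
      unfold Pool.Agent.W307.IM.T2
      rw [mem_filter, Nat.mem_primeFactors]
      exact ⟨⟨hq1, Int.natCast_dvd.1 h6, by simpa using ⟨ha, hb⟩⟩, by omega⟩
  have hfin := (sel_le h0 hR hf).1
  have hle := sub_le hR (fun p hp => (hP' p hp).1) V hsn hfin
  have hQc : Q.card ≤ (Pool.Agent.W307.IM.T2 a b).card + 8 := by
    rw [hQ]
    refine (card_union_le _ _).trans ?_
    have : (({3, 5, 7, 11, 13, 17, 19, 23} : Finset ℕ)).card = 8 := by decide
    omega
  have hSc : (Pool.Agent.W307.IM.S2 a b).card ≤ P.card + 7 := by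
    have h1 : Pool.Agent.W307.IM.S2 a b ⊆ P ∪ {5, 7, 11, 13, 17, 19, 23} := by
      intro p hp
      rw [mem_union]
      by_cases h5 : 29 ≤ p
      · exact Or.inl (mem_filter.2 ⟨hp, h5⟩)
      · right
        unfold Pool.Agent.W307.IM.S2 at hp
        rw [mem_filter, Nat.mem_primeFactors] at hp
        obtain ⟨⟨h1, -⟩, h3, -⟩ := hp
        simp only [mem_insert, mem_singleton]
        interval_cases p <;> first | omega | (exfalso; revert h1; decide)
    refine (card_le_card h1).trans ((card_union_le _ _).trans ?_)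
    have : (({5, 7, 11, 13, 17, 19, 23} : Finset ℕ)).card = 7 := by decide
    omega
  calc 2 ^ (Pool.Agent.W307.IM.S2 a b).card ≤ 2 ^ (P.card + 7) := Nat.pow_le_pow_right (by norm_num) hSc
    _ = 2 ^ P.card * 2 ^ 7 := pow_add _ _ _
    _ ≤ 2 ^ (Q.card + 2) * Nat.card V * 2 ^ 7 := Nat.mul_le_mul_right _ hV1
    _ ≤ 2 ^ ((Pool.Agent.W307.IM.T2 a b).card + 8 + 2) * Nat.card V * 2 ^ 7 := by
        refine Nat.mul_le_mul_right _ (Nat.mul_le_mul_right _ (Nat.pow_le_pow_right (by norm_num) ?_))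
        omega
    _ = 2 ^ ((Pool.Agent.W307.IM.T2 a b).card + 17) * Nat.card V := by ring
    _ ≤ _ := Nat.mul_le_mul_left _ hle

end Pool.Agent.H514.MX
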