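import Pool.Agent.H514.MX.Fin
import Pool.Agent.H514.MX.M1
import Pool.Agent.H514.MX.M2
import Pool.Agent.H514.MX.M4d
import Pool.Agent.H514.FinK
import Pool.Graph.R_pool_sql_team_seeded_f72693b1.W81.IM.BAD
import Pool.Graph.R_pool_sql_team_seeded_f72693b1.W232.IM.Elow

/-! The moments of the order of the 2-Selmer group. -/

set_option autoImplicit false

open scoped Classical

namespace Pool.Agent.H514.MX

open Finset Filter Pool.Agent.W307.RT Pool.Agent.W262.SH Pool.Agent.H514.KS Pool.Agent.W307.IM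
open Pool.Agent.W672.FK (cg)

/-- the asymptotic lower bound for the exponential moment -/
theorem ana : ANAX :=
  anax (Pool.Agent.W430.IM.ZLOW.zlow_of Pool.Agent.W232.IM.elow) Pool.Agent.W232.IM.elow
    Pool.Agent.W81.IM.bade
    (aelo (Pool.Agent.W430.IM.ZLOW.zlow_of Pool.Agent.W232.IM.elow)) Pool.Agent.H286.MX.expm

/-- the order of the 2-Selmer group -/
noncomputable def sl (c : ℤ × ℤ) : ℝ := Nat.card (Pool.Agent.H514.MX.Sel2 (Sh c.1 c.2))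

/-- `2 ^ rank * #Ш[2]` -/
noncomputable def ws (c : ℤ × ℤ) : ℝ := Pool.Agent.H905.SH.wtW (Sh c.1 c.2)

lemma ws_eq (c : ℤ × ℤ) : ws c = (2 : ℝ) ^ Module.finrank ℤ (Sh c.1 c.2).toAffine.Point *
    Nat.card (Sha2 (Sh c.1 c.2)) := by
  unfold ws Pool.Agent.H905.SH.wtW
  rw [sha2_eq]

lemma sl_nonneg (c : ℤ × ℤ) : 0 ≤ sl c := Nat.cast_nonneg _

lemma rr_mem {H : ℕ} {c : ℤ × ℤ} (hc : c ∈ Cv 2 H) : ∃ e : Fin 3 → ℤ, RR (Sh c.1 c.2) e := by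
  simp only [Cv, Finset.mem_filter] at hc
  obtain ⟨-, hD, -, -, -, hT⟩ := hc
  obtain ⟨ab, hr⟩ : ∃ ab, Pool.Agent.H514.Rel2 c ab :=
    Pool.Agent.H514.core2 (A := c.1) (B := c.2) hD hT
  obtain ⟨e1, e2, -, h2, h3, h4, hA, hB⟩ := hr
  exact ⟨er e1 e2, rr_of_rel h2 h3 h4 hA hB⟩

lemma disc_mem {H : ℕ} {c : ℤ × ℤ} (hc : c ∈ Cv 2 H) : 4 * c.1 ^ 3 + 27 * c.2 ^ 2 ≠ 0 := by
  simp only [Cv, Finset.mem_filter] at hc
  exact hc.2.1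

lemma sha_mem {H : ℕ} {c : ℤ × ℤ} (hc : c ∈ Cv 2 H) : Finite (Sha2 (Sh c.1 c.2)) := by
  rw [sha2_eq]
  exact fin_sha hc

theorem sl_fin {H : ℕ} {c : ℤ × ℤ} (hc : c ∈ Cv 2 H) :
    Finite (Pool.Agent.H514.MX.Sel2 (Sh c.1 c.2)) := by
  obtain ⟨e, he⟩ := rr_mem hc
  exact (sel_le (disc_mem hc) he (sha_mem hc)).1

theorem sl_le {H : ℕ} {c : ℤ × ℤ} (hc : c ∈ Cv 2 H) : sl c ≤ 4 * ws c := by
  obtain ⟨e, he⟩ := rr_mem hc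
  have h := (sel_le (disc_mem hc) he (sha_mem hc)).2
  have h1 : sl c ≤ ((4 * 2 ^ Module.finrank ℤ (Sh c.1 c.2).toAffine.Point *
      Nat.card (Sha2 (Sh c.1 c.2)) : ℕ) : ℝ) := Nat.cast_le.2 h
  have h2 : ((4 * 2 ^ Module.finrank ℤ (Sh c.1 c.2).toAffine.Point *
      Nat.card (Sha2 (Sh c.1 c.2)) : ℕ) : ℝ) = 4 * ws c := by
    rw [ws_eq]
    push_cast
    ring
  rw [← h2]
  exact h1

lemma pr_mem {T : ℕ} {t : ℕ × ℕ} (ht : t ∈ Pr T) :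
    (cA t.1 t.2, cB t.1 t.2) ∈ Cv 2 (2000000 * T ^ 6) := by
  unfold Pr at ht
  rw [mem_filter, mem_product, mem_Icc, mem_Icc] at ht
  obtain ⟨⟨⟨a1, a2⟩, a3, a4⟩, a5, a6⟩ := ht
  have h0 : (cA t.1 t.2, cB t.1 t.2) = cg t := by
    ext
    · exact Pool.Agent.W430.IM.FAMI.cA_cg t
    · exact Pool.Agent.W430.IM.FAMI.cB_cg t
  rw [h0]
  rcases lt_or_gt_of_ne a5 with h | h
  · rw [← Pool.Agent.W430.IM.FAMI.cg_swap]
    exact Pool.Agent.W672.FK.mem_cv2 (a := t.2) (b := t.1) a1 h a4 a6.symm le_rfl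
  · exact Pool.Agent.W672.FK.mem_cv2 (a := t.1) (b := t.2) a3 h a2 a6 le_rfl

theorem sl_low (T : ℕ) (t : ℕ × ℕ) (ht : t ∈ Pr T) :
    (2 : ℝ) ^ (((Pool.Agent.W307.IM.S2 t.1 t.2).card : ℝ) -
      (Pool.Agent.W307.IM.T2 t.1 t.2).card - 17) ≤ sl (cA t.1 t.2, cB t.1 t.2) := by
  have hm := pr_mem ht
  unfold Pr at ht
  rw [mem_filter, mem_product, mem_Icc, mem_Icc] at ht
  obtain ⟨⟨⟨a1, a2⟩, a3, a4⟩, a5, a6⟩ := ht
  have b1 : ((t.1 : ℕ) : ℤ) ≠ 0 := by omega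
  have b2 : ((t.2 : ℕ) : ℤ) ≠ 0 := by omega
  have b3 : ((t.1 : ℕ) : ℤ) ≠ (t.2 : ℕ) := by exact_mod_cast a5
  have b4 : IsCoprime ((t.1 : ℕ) : ℤ) ((t.2 : ℕ) : ℤ) := Nat.isCoprime_iff_coprime.2 a6
  have hf : Finite (Sha2 (Sh (cA t.1 t.2) (cB t.1 t.2))) :=
    sha_mem (H := 2000000 * T ^ 6) (c := (cA t.1 t.2, cB t.1 t.2)) hm
  have hd : 4 * (cA t.1 t.2) ^ 3 + 27 * (cB t.1 t.2) ^ 2 ≠ 0 :=
    disc_mem (H := 2000000 * T ^ 6) (c := (cA t.1 t.2, cB t.1 t.2)) hm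
  have h := sel_low b1 b2 b3 b4 hf hd
  rw [sub_sub, Real.rpow_sub (by norm_num), div_le_iff₀ (by positivity)]
  unfold sl
  have h1 : ((2 ^ (Pool.Agent.W307.IM.S2 t.1 t.2).card : ℕ) : ℝ) ≤
    ((2 ^ ((Pool.Agent.W307.IM.T2 t.1 t.2).card + 17) *
      Nat.card (Pool.Agent.H514.MX.Sel2 (Sh (cA t.1 t.2) (cB t.1 t.2))) : ℕ) : ℝ) := by
    exact_mod_cast h
  have h2 : ((Pool.Agent.W307.IM.T2 t.1 t.2).card : ℝ) + 17 =
      (((Pool.Agent.W307.IM.T2 t.1 t.2).card + 17 : ℕ) : ℝ) := by push_cast; ring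
  rw [h2, Real.rpow_natCast, Real.rpow_natCast]
  push_cast at h1 ⊢
  linarith

/-- the lower bound of the moments -/
theorem low {s ε : ℝ} (hs : 0 < s) (hε : 0 < ε) :
    ∀ᶠ H : ℕ in atTop, (Real.log H) ^ (ex s - ε) * (Cv 2 H).card ≤ ∑ c ∈ Cv 2 H, sl c ^ s :=
  low_gen ana sl_nonneg (K := 17) sl_low hs hε

end Pool.Agent.H514.MX
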