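import Pool.Agent.H514.MX.Fin2
import Pool.Graph.R_seed8.W307.RT.Tors

/-! The moments of the order of the 2-Selmer group: exponents. -/

set_option autoImplicit false

open scoped Classical

namespace Pool.Agent.H514.MX

open Finset Filter Pool.Agent.W307.RT

/-- the average of the powers of order `s` -/
noncomputable def mom (f : ℤ × ℤ → ℝ) (s : ℝ) (H : ℕ) : ℝ :=
  (∑ c ∈ Cv 2 H, f c ^ s) / (Cv 2 H).card

lemma card_tend : Tendsto (fun H : ℕ => (Cv 2 H).card) atTop atTop :=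
  Pool.Agent.W307.RT.tendsto_of_low Pool.Agent.H514.low2

lemma ev_card : ∀ᶠ H : ℕ in atTop, (0 : ℝ) < (Cv 2 H).card := by
  filter_upwards [card_tend.eventually_ge_atTop 1] with H hH
  exact_mod_cast hH

lemma tend_log : Tendsto (fun H : ℕ => Real.log (H : ℝ)) atTop atTop :=
  Real.tendsto_log_atTop.comp tendsto_natCast_atTop_atTop

lemma ws_nonneg (c : ℤ × ℤ) : 0 ≤ ws c := Pool.Agent.H905.SH.wtW_nonneg _

lemma ex_pos {s : ℝ} (hs : 2 < s) : 0 < ex s := by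
  unfold ex
  have h1 : (4 : ℝ) < (2 : ℝ) ^ s := by
    have h2 : (2 : ℝ) ^ (2 : ℝ) < (2 : ℝ) ^ s := Real.rpow_lt_rpow_of_exponent_lt (by norm_num) hs
    have h3 : (2 : ℝ) ^ (2 : ℝ) = 4 := by
      rw [show (2 : ℝ) ^ (2 : ℝ) = (2 : ℝ) ^ ((2 : ℕ) : ℝ) by norm_num, Real.rpow_natCast]
      norm_num
    linarith
  rw [Real.rpow_neg (by norm_num)]
  set x : ℝ := (2 : ℝ) ^ s with hx
  have hx0 : 0 < x := by linarith
  have h4 : x / 2 - 5 / 2 + 2 * x⁻¹ = (x - 1) * (x - 4) / (2 * x) := by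
    field_simp
    ring
  rw [h4]
  apply div_pos (mul_pos (by linarith) (by linarith)) (by linarith)

lemma ex_nat (m : ℕ) : ex (m : ℝ) = (2 : ℝ) ^ m / 2 - 5 / 2 + 2 / 2 ^ m := by
  unfold ex
  rw [Real.rpow_neg (by norm_num), Real.rpow_natCast]
  ring

/-- lower bound for the order of the 2-Selmer group -/
theorem mom_low {s ε : ℝ} (hs : 0 < s) (hε : 0 < ε) :
    ∀ᶠ H : ℕ in atTop, (Real.log H) ^ (ex s - ε) ≤ mom sl s H := by
  filter_upwards [low hs hε, ev_card] with H h1 h2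
  unfold mom
  rwa [le_div_iff₀ h2]

/-- lower bound for `2 ^ rank * #Ш[2]` -/
theorem mom_low' {s ε : ℝ} (hs : 0 < s) (hε : 0 < ε) :
    ∀ᶠ H : ℕ in atTop, (Real.log H) ^ (ex s - ε) ≤ mom ws s H := by
  have h4 : (0 : ℝ) < (4 : ℝ) ^ s := by positivity
  have hpow : Tendsto (fun H : ℕ => (Real.log (H : ℝ)) ^ (ε / 2)) atTop atTop :=
    (tendsto_rpow_atTop (half_pos hε)).comp tend_log
  filter_upwards [mom_low hs (half_pos hε), ev_card, hpow.eventually_ge_atTop ((4 : ℝ) ^ s),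
    tend_log.eventually_gt_atTop 0] with H h1 h2 h3 h5
  have h6 : mom sl s H ≤ (4 : ℝ) ^ s * mom ws s H := by
    unfold mom
    rw [mul_div_assoc']
    refine div_le_div_of_nonneg_right ?_ h2.le
    rw [mul_sum]
    refine sum_le_sum fun c hc => ?_
    rw [← Real.mul_rpow (by norm_num) (ws_nonneg c)]
    exact Real.rpow_le_rpow (sl_nonneg c) (sl_le hc) hs.le
  have h7 : (Real.log H) ^ (ex s - ε / 2) = (Real.log H) ^ (ex s - ε) * (Real.log H) ^ (ε / 2) := by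
    rw [← Real.rpow_add h5]
    congr 1
    ring
  rw [h7] at h1
  have h8 : 0 ≤ (Real.log H) ^ (ex s - ε) := Real.rpow_nonneg h5.le _
  have h9 : (Real.log H) ^ (ex s - ε) * (4 : ℝ) ^ s ≤ (4 : ℝ) ^ s * mom ws s H :=
    (mul_le_mul_of_nonneg_left h3 h8).trans (h1.trans h6)
  rw [mul_comm] at h9
  exact le_of_mul_le_mul_left h9 h4

/-- upper bound for `2 ^ rank * #Ш[2]` -/
theorem mom_up {m : ℕ} (hm : 2 ≤ m) : ∃ C : ℝ, 0 ≤ C ∧ ∀ H : ℕ, mom ws m H ≤
    C * (1 + Real.log H) ^ (ex m) := by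
  obtain ⟨C, hC⟩ := main_sha m hm
  refine ⟨max C 0, le_max_right _ _, fun H => ?_⟩
  unfold mom
  have hL : 0 ≤ (1 + Real.log H) ^ (ex m) := by
    have : 0 ≤ Real.log (H : ℝ) := Real.log_natCast_nonneg H
    exact Real.rpow_nonneg (by linarith) _
  rcases eq_or_lt_of_le (Nat.cast_nonneg (α := ℝ) (Cv 2 H).card) with h0 | h0
  · rw [← h0, div_zero]
    exact mul_nonneg (le_max_right _ _) hL
  · rw [div_le_iff₀ h0]
    have h1 := hC H
    have h2 : LgK m H = (1 + Real.log H) ^ (ex m) := by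
      unfold LgK th
      rw [ex_nat]
    rw [h2] at h1
    have h3 : ∑ c ∈ Cv 2 H, ws c ^ (m : ℝ) = ∑ c ∈ Cv 2 H,
        (Pool.Agent.H905.SH.wtW (Sh c.1 c.2)) ^ m :=
      sum_congr rfl fun c _ => Real.rpow_natCast _ _
    rw [h3]
    refine h1.trans ?_
    exact mul_le_mul_of_nonneg_right (mul_le_mul_of_nonneg_right (le_max_left _ _) hL) h0.le

/-- upper bound for the order of the 2-Selmer group -/
theorem mom_up' {m : ℕ} (hm : 2 ≤ m) : ∃ C : ℝ, 0 ≤ C ∧ ∀ H : ℕ, mom sl m H ≤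
    C * (1 + Real.log H) ^ (ex m) := by
  obtain ⟨C, hC0, hC⟩ := mom_up hm
  refine ⟨(4 : ℝ) ^ m * C, by positivity, fun H => ?_⟩
  have h6 : mom sl m H ≤ (4 : ℝ) ^ m * mom ws m H := by
    unfold mom
    rw [mul_div_assoc']
    refine div_le_div_of_nonneg_right ?_ (Nat.cast_nonneg _)
    rw [mul_sum]
    refine sum_le_sum fun c hc => ?_
    rw [Real.rpow_natCast, Real.rpow_natCast, ← mul_pow]
    exact pow_le_pow_left₀ (sl_nonneg c) (sl_le hc) _
  calc mom sl m H ≤ (4 : ℝ) ^ m * mom ws m H := h6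
    _ ≤ (4 : ℝ) ^ m * (C * (1 + Real.log H) ^ (ex m)) :=
        mul_le_mul_of_nonneg_left (hC H) (by positivity)
    _ = _ := by ring

/-- the limit of the exponents -/
theorem lim_gen {g : ℕ → ℝ} {e : ℝ} (he : 0 ≤ e)
    (h1 : ∀ ε : ℝ, 0 < ε → ∀ᶠ H : ℕ in atTop, (Real.log H) ^ (e - ε) ≤ g H)
    (h2 : ∃ C : ℝ, 0 ≤ C ∧ ∀ H : ℕ, g H ≤ C * (1 + Real.log H) ^ e) :
    Tendsto (fun H : ℕ => Real.log (g H) / Real.log (Real.log H)) atTop (nhds e) := by
  obtain ⟨C, hC0, hC⟩ := h2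
  rw [Metric.tendsto_atTop']
  intro δ hδ
  have hd : 0 < δ / 2 := half_pos hδ
  have hpow : Tendsto (fun H : ℕ => (Real.log (H : ℝ)) ^ (δ / 2)) atTop atTop :=
    (tendsto_rpow_atTop hd).comp tend_log
  have hev := ((h1 (δ / 2) hd).and (hpow.eventually_ge_atTop (C * 2 ^ e))).and
    (tend_log.eventually_gt_atTop (Real.exp 1))
  obtain ⟨N, hN⟩ := eventually_atTop.1 hev
  refine ⟨N, fun H hH => ?_⟩
  obtain ⟨⟨k1, k2⟩, k3⟩ := hN H hH.le
  have hL1 : 1 < Real.log (H : ℝ) := by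
    have := Real.add_one_le_exp (1 : ℝ)
    linarith
  have hL0 : 0 < Real.log (H : ℝ) := by linarith
  have hLL : 1 < Real.log (Real.log (H : ℝ)) := by
    rw [Real.lt_log_iff_exp_lt hL0]
    exact k3
  have hLL0 : 0 < Real.log (Real.log (H : ℝ)) := by linarith
  have k4 : g H ≤ (Real.log H) ^ (e + δ / 2) := by
    calc g H ≤ C * (1 + Real.log H) ^ e := hC H
      _ ≤ C * (2 * Real.log H) ^ e :=
        mul_le_mul_of_nonneg_left (Real.rpow_le_rpow (by linarith) (by linarith) he) hC0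
      _ = (C * 2 ^ e) * (Real.log H) ^ e := by
        rw [Real.mul_rpow (by norm_num) hL0.le]
        ring
      _ ≤ (Real.log H) ^ (δ / 2) * (Real.log H) ^ e :=
        mul_le_mul_of_nonneg_right k2 (Real.rpow_nonneg hL0.le _)
      _ = (Real.log H) ^ (e + δ / 2) := by
        rw [← Real.rpow_add hL0]
        congr 1
        ring
  have hg0 : 0 < g H := lt_of_lt_of_le (Real.rpow_pos_of_pos hL0 _) k1
  have k5 : (e - δ / 2) * Real.log (Real.log H) ≤ Real.log (g H) := by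
    rw [← Real.log_rpow hL0]
    exact Real.log_le_log (Real.rpow_pos_of_pos hL0 _) k1
  have k6 : Real.log (g H) ≤ (e + δ / 2) * Real.log (Real.log H) := by
    rw [← Real.log_rpow hL0]
    exact Real.log_le_log hg0 k4
  rw [Real.dist_eq, abs_lt]
  constructor
  · have : e - δ / 2 ≤ Real.log (g H) / Real.log (Real.log H) := by
      rwa [le_div_iff₀ hLL0]
    linarith
  · have : Real.log (g H) / Real.log (Real.log H) ≤ e + δ / 2 := by
      rwa [div_le_iff₀ hLL0]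
    linarith

theorem lim_sl {m : ℕ} (hm : 3 ≤ m) : Tendsto (fun H : ℕ => Real.log (mom sl m H) /
    Real.log (Real.log H)) atTop (nhds (ex m)) :=
  lim_gen (ex_pos (by exact_mod_cast (by omega : 2 < m))).le
    (fun ε hε => mom_low (by positivity) hε) (mom_up' (by omega))

theorem lim_ws {m : ℕ} (hm : 3 ≤ m) : Tendsto (fun H : ℕ => Real.log (mom ws m H) /
    Real.log (Real.log H)) atTop (nhds (ex m)) :=
  lim_gen (ex_pos (by exact_mod_cast (by omega : 2 < m))).le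
    (fun ε hε => mom_low' (by positivity) hε) (mom_up (by omega))

/-- the moments of order greater than two tend to infinity -/
theorem inf_gen {g : ℕ → ℝ} {s : ℝ} (hs : 2 < s)
    (h1 : ∀ ε : ℝ, 0 < ε → ∀ᶠ H : ℕ in atTop, (Real.log H) ^ (ex s - ε) ≤ g H) :
    Tendsto g atTop atTop := by
  have h2 := ex_pos hs
  have h3 := h1 (ex s / 2) (half_pos h2)
  have h4 : ex s - ex s / 2 = ex s / 2 := by ring
  rw [h4] at h3
  exact tendsto_atTop_mono' atTop h3 ((tendsto_rpow_atTop (half_pos h2)).comp tend_log)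

/-- the moments of order at most two are bounded -/
theorem bdd_gen {f : ℤ × ℤ → ℝ} (hf : ∀ c, 0 ≤ f c) {C : ℝ} (hC : ∀ H : ℕ, mom f (2 : ℕ) H ≤ C)
    {s : ℝ} (hs0 : 0 ≤ s) (hs : s ≤ 2) (H : ℕ) : mom f s H ≤ 1 + C := by
  have h1 : ∀ c, f c ^ s ≤ 1 + f c ^ ((2 : ℕ) : ℝ) := by
    intro c
    rcases le_total (f c) 1 with h | h
    · have := Real.rpow_le_one (hf c) h hs0
      have h2 : 0 ≤ f c ^ ((2 : ℕ) : ℝ) := Real.rpow_nonneg (hf c) _
      linarith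
    · have := Real.rpow_le_rpow_of_exponent_le h (show s ≤ ((2 : ℕ) : ℝ) by exact_mod_cast hs)
      linarith
  have hC' := hC H
  unfold mom at hC' ⊢
  rcases eq_or_lt_of_le (Nat.cast_nonneg (α := ℝ) (Cv 2 H).card) with h0 | h0
  · rw [← h0, div_zero] at hC' ⊢
    linarith
  · rw [div_le_iff₀ h0] at hC' ⊢
    calc ∑ c ∈ Cv 2 H, f c ^ s ≤ ∑ c ∈ Cv 2 H, (1 + f c ^ ((2 : ℕ) : ℝ)) :=
          sum_le_sum fun c _ => h1 c
      _ = (Cv 2 H).card + ∑ c ∈ Cv 2 H, f c ^ ((2 : ℕ) : ℝ) := by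
          rw [sum_add_distrib, sum_const, nsmul_eq_mul, mul_one]
      _ ≤ (1 + C) * (Cv 2 H).card := by linarith

lemma ex_two : ex ((2 : ℕ) : ℝ) = 0 := by
  rw [ex_nat]
  norm_num

theorem bdd_ws : ∃ C : ℝ, ∀ H : ℕ, mom ws (2 : ℕ) H ≤ C := by
  obtain ⟨C, -, hC⟩ := mom_up (le_refl 2)
  refine ⟨C, fun H => ?_⟩
  have := hC H
  rwa [ex_two, Real.rpow_zero, mul_one] at this

theorem bdd_sl : ∃ C : ℝ, ∀ H : ℕ, mom sl (2 : ℕ) H ≤ C := by
  obtain ⟨C, -, hC⟩ := mom_up' (le_refl 2)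
  refine ⟨C, fun H => ?_⟩
  have := hC H
  rwa [ex_two, Real.rpow_zero, mul_one] at this

theorem crit {f : ℤ × ℤ → ℝ} (hf : ∀ c, 0 ≤ f c) (hb : ∃ C : ℝ, ∀ H : ℕ, mom f (2 : ℕ) H ≤ C)
    (h1 : ∀ s ε : ℝ, 0 < s → 0 < ε → ∀ᶠ H : ℕ in atTop, (Real.log H) ^ (ex s - ε) ≤ mom f s H)
    {s : ℝ} (hs0 : 0 ≤ s) : (∃ C : ℝ, ∀ H : ℕ, mom f s H ≤ C) ↔ s ≤ 2 := by
  constructor
  · rintro ⟨C, hC⟩
    by_contra hcon
    have h2 := inf_gen (not_le.1 hcon) (fun ε hε => h1 s ε (by linarith) hε)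
    obtain ⟨H, hH⟩ := (h2.eventually_gt_atTop C).exists
    exact absurd (hC H) (not_le.2 hH)
  · intro hs
    obtain ⟨C, hC⟩ := hb
    exact ⟨1 + C, bdd_gen hf hC hs0 hs⟩

/-- the curves with a large value -/
noncomputable def big (f : ℤ × ℤ → ℝ) (N : ℝ) (H : ℕ) : ℝ :=
  ((Cv 2 H).filter (fun c => N ≤ f c)).card

/-- the tail: the exponent two -/
theorem tail_le {f : ℤ × ℤ → ℝ} (hf : ∀ c, 0 ≤ f c)
    (hb : ∃ C : ℝ, ∀ H : ℕ, mom f (2 : ℕ) H ≤ C) :
    ∃ C : ℝ, ∀ (H : ℕ) (N : ℝ), 0 < N → big f N H ≤ C * N ^ (-(2 : ℝ)) * (Cv 2 H).card := by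
  obtain ⟨C, hC⟩ := hb
  refine ⟨C, fun H N hN => ?_⟩
  have h0 := hC H
  have hp : N ^ (-(2 : ℝ)) = 1 / N ^ 2 := by
    rw [Real.rpow_neg hN.le, one_div, show (2 : ℝ) = ((2 : ℕ) : ℝ) by norm_num, Real.rpow_natCast]
  rw [hp]
  unfold mom at h0
  unfold big
  rcases eq_or_lt_of_le (Nat.cast_nonneg (α := ℝ) (Cv 2 H).card) with h1 | h1
  · have h2 : ((Cv 2 H).filter (fun c => N ≤ f c)).card ≤ (Cv 2 H).card := card_filter_le _ _
    have h3 : (((Cv 2 H).filter (fun c => N ≤ f c)).card : ℝ) ≤ (Cv 2 H).card := by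
      exact_mod_cast h2
    rw [← h1] at h3 ⊢
    rw [mul_zero]
    exact h3
  · rw [div_le_iff₀ h1] at h0
    have h2 : (((Cv 2 H).filter (fun c => N ≤ f c)).card : ℝ) * N ^ 2 ≤
        ∑ c ∈ Cv 2 H, f c ^ ((2 : ℕ) : ℝ) := by
      rw [← nsmul_eq_mul, ← sum_const]
      refine (sum_le_sum fun c hc => ?_).trans
        (sum_le_sum_of_subset_of_nonneg (filter_subset (fun c => N ≤ f c) (Cv 2 H))
          fun c _ _ => Real.rpow_nonneg (hf c) _)
      rw [Real.rpow_natCast]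
      exact pow_le_pow_left₀ hN.le (mem_filter.1 hc).2 _
    have h3 : (((Cv 2 H).filter (fun c => N ≤ f c)).card : ℝ) * N ^ 2 ≤ C * (Cv 2 H).card :=
      h2.trans h0
    rw [mul_one_div, div_mul_eq_mul_div, le_div_iff₀ (by positivity)]
    exact h3

lemma dyad {x s : ℝ} (hx : 0 ≤ x) (hs : 0 < s) {n : ℕ} (hn : x < 2 ^ n) :
    x ^ s ≤ 1 + ∑ k ∈ range n, (2 : ℝ) ^ (((k : ℝ) + 1) * s) * (if (2 : ℝ) ^ k ≤ x then 1 else 0) := by
  have hnn : ∀ k ∈ range n, 0 ≤ (2 : ℝ) ^ (((k : ℝ) + 1) * s) *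
      (if (2 : ℝ) ^ k ≤ x then (1 : ℝ) else 0) := by
    intro k _
    split_ifs <;> positivity
  rcases lt_or_ge x 1 with h | h
  · have h1 := Real.rpow_le_one hx h.le hs.le
    have h2 := sum_nonneg hnn
    linarith
  · obtain ⟨k, hk1, hk2⟩ := exists_nat_pow_near h (one_lt_two)
    have hkn : k ∈ range n := by
      rw [mem_range]
      by_contra hcon
      have h3 : (2 : ℝ) ^ n ≤ 2 ^ k := pow_le_pow_right₀ (by norm_num) (not_lt.1 hcon)
      linarith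
    have h4 := single_le_sum hnn hkn
    rw [if_pos hk1, mul_one] at h4
    have h5 : x ^ s ≤ (2 : ℝ) ^ (((k : ℝ) + 1) * s) := by
      rw [Real.rpow_mul (by norm_num)]
      refine Real.rpow_le_rpow hx ?_ hs.le
      have h6 : (2 : ℝ) ^ ((k : ℝ) + 1) = 2 ^ (k + 1) := by
        rw [← Real.rpow_natCast]
        push_cast
        rfl
      rw [h6]
      exact hk2.le
    linarith

/-- the exponent two of the tail is optimal -/
theorem tail_opt {f : ℤ × ℤ → ℝ} (hf : ∀ c, 0 ≤ f c)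
    (h1 : ∀ s ε : ℝ, 0 < s → 0 < ε → ∀ᶠ H : ℕ in atTop, (Real.log H) ^ (ex s - ε) ≤ mom f s H)
    {δ : ℝ} (hδ : 0 < δ) : ¬ ∃ C : ℝ, ∀ (H : ℕ) (N : ℝ), 0 < N →
      big f N H ≤ C * N ^ (-(2 + δ)) * (Cv 2 H).card := by
  rintro ⟨C, hC⟩
  set s : ℝ := 2 + δ / 2 with hs
  have hs2 : 2 < s := by linarith
  have hs0 : 0 < s := by linarith
  set q : ℝ := (2 : ℝ) ^ (-(δ / 2)) with hq
  have hq0 : 0 < q := by positivity
  have hq1 : q < 1 := Real.rpow_lt_one_of_one_lt_of_neg (by norm_num) (by linarith)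
  have h2 := inf_gen hs2 (fun ε hε => h1 s ε hs0 hε)
  set M : ℝ := 1 + (2 : ℝ) ^ s * |C| * (1 - q)⁻¹ with hM
  have hbd : ∀ H : ℕ, mom f s H ≤ M := by
    intro H
    have hM0 : 0 ≤ M := by
      have : 0 ≤ (1 - q)⁻¹ := inv_nonneg.2 (by linarith)
      positivity
    unfold mom
    rcases eq_or_lt_of_le (Nat.cast_nonneg (α := ℝ) (Cv 2 H).card) with h0 | h0
    · rw [← h0, div_zero]
      exact hM0
    rw [div_le_iff₀ h0]
    obtain ⟨n, hn⟩ : ∃ n : ℕ, ∀ c ∈ Cv 2 H, f c < 2 ^ n := by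
      obtain ⟨n, hn⟩ := pow_unbounded_of_one_lt (∑ c ∈ Cv 2 H, f c) (one_lt_two (α := ℝ))
      exact ⟨n, fun c hc => (single_le_sum (fun c _ => hf c) hc).trans_lt hn⟩
    calc ∑ c ∈ Cv 2 H, f c ^ s ≤ ∑ c ∈ Cv 2 H, (1 + ∑ k ∈ range n,
          (2 : ℝ) ^ (((k : ℝ) + 1) * s) * (if (2 : ℝ) ^ k ≤ f c then 1 else 0)) :=
        sum_le_sum fun c hc => dyad (hf c) hs0 (hn c hc)
      _ = (Cv 2 H).card + ∑ k ∈ range n, (2 : ℝ) ^ (((k : ℝ) + 1) * s) *
          big f ((2 : ℝ) ^ k) H := by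
        rw [sum_add_distrib, sum_const, nsmul_eq_mul, mul_one, sum_comm]
        congr 1
        refine sum_congr rfl fun k _ => ?_
        rw [← mul_sum]
        congr 1
        unfold big
        rw [card_filter]
        push_cast
        rfl
      _ ≤ (Cv 2 H).card + ∑ k ∈ range n, ((2 : ℝ) ^ s * |C|) * q ^ k * (Cv 2 H).card := by
        refine add_le_add le_rfl (sum_le_sum fun k _ => ?_)
        have h3 := hC H ((2 : ℝ) ^ k) (by positivity)
        have h4 : ((2 : ℝ) ^ k) ^ (-(2 + δ)) = (2 : ℝ) ^ (-((k : ℝ) * (2 + δ))) := by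
          rw [← Real.rpow_natCast, ← Real.rpow_mul (by norm_num)]
          congr 1
          ring
        rw [h4] at h3
        have h5 : q ^ k = (2 : ℝ) ^ (-(k * (δ / 2))) := by
          rw [hq, ← Real.rpow_natCast, ← Real.rpow_mul (by norm_num)]
          congr 1
          ring
        have h6 : (2 : ℝ) ^ (((k : ℝ) + 1) * s) * (2 : ℝ) ^ (-((k : ℝ) * (2 + δ))) =
            (2 : ℝ) ^ s * q ^ k := by
          rw [h5, ← Real.rpow_add (by norm_num), ← Real.rpow_add (by norm_num)]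
          congr 1
          rw [hs]
          ring
        calc (2 : ℝ) ^ (((k : ℝ) + 1) * s) * big f ((2 : ℝ) ^ k) H ≤
            (2 : ℝ) ^ (((k : ℝ) + 1) * s) *
              (|C| * (2 : ℝ) ^ (-((k : ℝ) * (2 + δ))) * (Cv 2 H).card) := by
              refine mul_le_mul_of_nonneg_left (h3.trans ?_) (by positivity)
              exact mul_le_mul_of_nonneg_right
                (mul_le_mul_of_nonneg_right (le_abs_self C) (by positivity)) h0.le
          _ = ((2 : ℝ) ^ (((k : ℝ) + 1) * s) * (2 : ℝ) ^ (-((k : ℝ) * (2 + δ)))) *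
              |C| * (Cv 2 H).card := by ring
          _ = _ := by
              rw [h6]
              ring
      _ ≤ M * (Cv 2 H).card := by
        have h7 : ∑ k ∈ range n, q ^ k ≤ (1 - q)⁻¹ := by
          rw [geom_sum_eq hq1.ne]
          have h8 : (q ^ n - 1) / (q - 1) = (1 - q ^ n) / (1 - q) := by
            rw [← neg_sub 1 (q ^ n), ← neg_sub 1 q, neg_div_neg_eq]
          rw [h8, ← one_div]
          exact div_le_div_of_nonneg_right (by linarith [pow_pos hq0 n]) (by linarith)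
        rw [← sum_mul, ← mul_sum]
        have h9 : (2 : ℝ) ^ s * |C| * ∑ k ∈ range n, q ^ k ≤ (2 : ℝ) ^ s * |C| * (1 - q)⁻¹ :=
          mul_le_mul_of_nonneg_left h7 (by positivity)
        have h10 := mul_le_mul_of_nonneg_right h9 h0.le
        rw [hM]
        linarith
  obtain ⟨H, hH⟩ := (h2.eventually_gt_atTop M).exists
  exact absurd (hbd H) (not_le.2 hH)

end Pool.Agent.H514.MX
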