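import Pool.Graph.R_pool_sql_team_seeded_f72693b1.W307.IM.Stm

/-!
MX-3 (ANAX): the exponential moment, up to a power of `log log T`.
-/

set_option autoImplicit false

namespace Pool.Agent.H514.MX

open Finset Filter Pool.Agent.W262.RK Pool.Agent.W307.RT Pool.Agent.W307.IM

/-- the exponent of the moment of order `s` -/
noncomputable def ex (s : ℝ) : ℝ := (2 : ℝ) ^ s / 2 - 5 / 2 + 2 * (2 : ℝ) ^ (-s)

/-- ANAX: the exponential moment, up to a power of `log log T` -/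
def ANAX : Prop := ∀ s : ℝ, 0 < s → ∃ (C : ℝ) (T0 : ℕ), ∀ T : ℕ, T0 ≤ T →
  (T : ℝ) ^ 2 * (Real.log T) ^ (ex s) / (Real.log (Real.log T)) ^ C ≤ MS s T

namespace MX3

theorem final {T L l G κ z C1 C2 M : ℝ} (hL : 0 < L) (hl : 16 ≤ l) (hT : 0 < T)
    (hG : T * L ^ (z - 1) / l ^ C2 ≤ G) (h1 : 2 * l ^ C1 ≤ L ^ (1 + κ))
    (h2 : 16 * l ^ (C1 + 2 * C2) ≤ L ^ (4 + (2 * z - 2 + κ)))
    (hM : G ^ 2 / 4 * (L ^ κ / l ^ C1 - 1 / L) - T ^ 2 / L ^ 4 ≤ M) :
    T ^ 2 * L ^ (2 * z - 2 + κ) / l ^ (C1 + 2 * C2 + 1) ≤ M := by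
  have hl0 : 0 < l := by linarith
  set P : ℝ := L ^ (2 * z - 2 + κ) / l ^ (C1 + 2 * C2) with hP
  have hP0 : 0 < P := div_pos (Real.rpow_pos_of_pos hL _) (Real.rpow_pos_of_pos hl0 _)
  have ha0 : 0 < L ^ κ / l ^ C1 := div_pos (Real.rpow_pos_of_pos hL _) (Real.rpow_pos_of_pos hl0 _)
  have hlC1 : 0 < l ^ C1 := Real.rpow_pos_of_pos hl0 _
  have e1 : 1 / L ≤ (L ^ κ / l ^ C1) / 2 := by
    rw [div_div, div_le_div_iff₀ hL (by positivity)]
    rw [Real.rpow_add hL, Real.rpow_one] at h1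
    linarith
  have e2 : T ^ 2 * L ^ (2 * z - 2) / l ^ (2 * C2) ≤ G ^ 2 := by
    have h3 : 0 ≤ T * L ^ (z - 1) / l ^ C2 := by positivity
    have h4 := pow_le_pow_left₀ h3 hG 2
    refine le_trans (le_of_eq ?_) h4
    rw [div_pow, mul_pow, ← Real.rpow_natCast (L ^ (z - 1)), ← Real.rpow_mul hL.le,
      ← Real.rpow_natCast (l ^ C2), ← Real.rpow_mul hl0.le]
    have h5 : (z - 1) * ((2 : ℕ) : ℝ) = 2 * z - 2 := by push_cast; ring
    have h6 : C2 * ((2 : ℕ) : ℝ) = 2 * C2 := by push_cast; ring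
    rw [h5, h6]
  have e3 : T ^ 2 * L ^ (2 * z - 2) / l ^ (2 * C2) * (L ^ κ / l ^ C1) = T ^ 2 * P := by
    rw [hP, Real.rpow_add hL, Real.rpow_add hl0]
    have h7 : 0 < l ^ (2 * C2) := Real.rpow_pos_of_pos hl0 _
    field_simp
  have e4 : T ^ 2 * P / 8 ≤ G ^ 2 / 4 * (L ^ κ / l ^ C1 - 1 / L) := by
    calc T ^ 2 * P / 8 = T ^ 2 * L ^ (2 * z - 2) / l ^ (2 * C2) / 4 * ((L ^ κ / l ^ C1) / 2) := by
          rw [← e3]; ring
      _ ≤ G ^ 2 / 4 * ((L ^ κ / l ^ C1) / 2) := by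
          refine mul_le_mul_of_nonneg_right (div_le_div_of_nonneg_right e2 (by norm_num)) ?_
          positivity
      _ ≤ G ^ 2 / 4 * (L ^ κ / l ^ C1 - 1 / L) :=
          mul_le_mul_of_nonneg_left (by linarith) (by positivity)
  have e5 : T ^ 2 / L ^ 4 ≤ T ^ 2 * P / 16 := by
    have h8 : 1 / L ^ 4 ≤ P / 16 := by
      have h9 : 0 < l ^ (C1 + 2 * C2) := Real.rpow_pos_of_pos hl0 _
      rw [hP, div_div, div_le_div_iff₀ (by positivity) (by positivity)]
      rw [Real.rpow_add hL] at h2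
      have h10 : L ^ (4 : ℝ) = L ^ 4 := by
        rw [show (4 : ℝ) = ((4 : ℕ) : ℝ) by norm_num, Real.rpow_natCast]
      rw [h10] at h2
      linarith
    calc T ^ 2 / L ^ 4 = T ^ 2 * (1 / L ^ 4) := by ring
      _ ≤ T ^ 2 * (P / 16) := mul_le_mul_of_nonneg_left h8 (by positivity)
      _ = T ^ 2 * P / 16 := by ring
  have e6 : T ^ 2 * L ^ (2 * z - 2 + κ) / l ^ (C1 + 2 * C2 + 1) = T ^ 2 * P / l := by
    rw [hP, Real.rpow_add hl0, Real.rpow_one]
    have h9 : 0 < l ^ (C1 + 2 * C2) := Real.rpow_pos_of_pos hl0 _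
    field_simp
  rw [e6]
  have e7 : T ^ 2 * P / l ≤ T ^ 2 * P / 16 :=
    div_le_div_of_nonneg_left (by positivity) (by norm_num) hl
  linarith

/-- the eventual inequalities -/
theorem evt (a r : ℝ) {t : ℝ} (ht : 0 < t) :
    ∀ᶠ T : ℕ in atTop, a * (Real.log (Real.log T)) ^ r ≤ (Real.log T) ^ t := by
  have h1 := (isLittleO_log_rpow_rpow_atTop r ht).bound (c := 1 / (|a| + 1)) (by positivity)
  have h2 : Tendsto (fun T : ℕ => Real.log (T : ℝ)) atTop atTop :=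
    Real.tendsto_log_atTop.comp tendsto_natCast_atTop_atTop
  filter_upwards [h2.eventually h1, h2.eventually (eventually_ge_atTop 1)] with T h3 h4
  have h5 : 0 ≤ Real.log (Real.log T) := Real.log_nonneg h4
  rw [Real.norm_of_nonneg (Real.rpow_nonneg h5 _),
    Real.norm_of_nonneg (Real.rpow_nonneg (by linarith) _)] at h3
  have h6 : a * (Real.log (Real.log T)) ^ r ≤ (|a| + 1) * (Real.log (Real.log T)) ^ r :=
    mul_le_mul_of_nonneg_right (by linarith [le_abs_self a]) (Real.rpow_nonneg h5 _)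
  refine h6.trans ?_
  have h7 : 0 < |a| + 1 := by positivity
  calc (|a| + 1) * (Real.log (Real.log T)) ^ r ≤
        (|a| + 1) * (1 / (|a| + 1) * (Real.log T) ^ t) := mul_le_mul_of_nonneg_left h3 h7.le
    _ = (Real.log T) ^ t := by field_simp

end MX3

open MX3 in
theorem anax (hz : ZLOW) (he : ELOW) (hb : BADE) (ha : AELO) (hx : EXPM) : ANAX := by
  classical
  intro s hs
  set z : ℝ := (2 : ℝ) ^ (-s) with hzdef
  have hz0 : 0 < z := Real.rpow_pos_of_pos two_pos _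
  have hz1 : z < 1 := Real.rpow_lt_one_of_one_lt_of_neg one_lt_two (neg_neg_of_pos hs)
  set u : ℝ := (2 : ℝ) ^ s - 1 with hu
  have hu0 : 0 < u := sub_pos.2 (Real.one_lt_rpow one_lt_two hs)
  set κ : ℝ := u / 2 with hκ
  have hκ0 : 0 < κ := half_pos hu0
  obtain ⟨K0, hK⟩ := he κ hκ0
  obtain ⟨B, hB⟩ := ha z K0 hz0 hz1
  obtain ⟨A1, hA1⟩ := hB B le_rfl
  obtain ⟨A2, hA2⟩ := hx s K0 hs
  obtain ⟨A3, hA3⟩ := hb z κ B K0 hz0 hz1 hκ0
  set A : ℕ := max A1 (max A2 A3) with hA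
  obtain ⟨T1, hT1⟩ := hA1 A (le_max_left _ _)
  obtain ⟨T2, hT2⟩ := hA2 A ((le_max_left _ _).trans (le_max_right _ _))
  obtain ⟨T3, hT3⟩ := hA3 A ((le_max_right _ _).trans (le_max_right _ _))
  obtain ⟨C1, T4, hT4⟩ := hK K0 A le_rfl
  obtain ⟨C2, T5, hT5⟩ := hz z A hz0 hz1
  have hex : ex s = 2 * z - 2 + κ := by
    rw [ex, hκ, hu, hzdef]
    ring
  have hex4 : 0 < 4 + (2 * z - 2 + κ) := by linarith
  have hLt : Tendsto (fun T : ℕ => Real.log (T : ℝ)) atTop atTop :=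
    Real.tendsto_log_atTop.comp tendsto_natCast_atTop_atTop
  have hlt : Tendsto (fun T : ℕ => Real.log (Real.log (T : ℝ))) atTop atTop :=
    Real.tendsto_log_atTop.comp hLt
  have key : ∀ᶠ T : ℕ in atTop,
      (T : ℝ) ^ 2 * (Real.log T) ^ (ex s) / (Real.log (Real.log T)) ^ (C1 + 2 * C2 + 1) ≤
        MS s T := by
    filter_upwards [eventually_ge_atTop T1, eventually_ge_atTop T2, eventually_ge_atTop T3,
      eventually_ge_atTop T4, eventually_ge_atTop T5, eventually_ge_atTop 1,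
      hLt.eventually (eventually_gt_atTop 0), hlt.eventually (eventually_ge_atTop 16),
      evt 2 C1 (t := 1 + κ) (by positivity), evt 16 (C1 + 2 * C2) hex4]
      with T g1 g2 g3 g4 g5 g6 hL hl e1 e2
    rw [hex]
    have hT0 : (0 : ℝ) < T := by exact_mod_cast g6
    set G : ℝ := GG z (wT A T) T 1 with hG
    have hGl := hT5 T g5
    rw [← hG] at hGl
    have hl0 : 0 < Real.log (Real.log T) := by linarith
    have hG0 : 0 ≤ G := le_trans (by positivity) hGl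
    refine final hL hl hT0 hGl e1 e2 ?_
    -- the sum over the moduli
    set Bd : Finset ℕ := Bad z (1 / (Real.log T) ^ B) A K0 T with hBd
    have hsub : Bd ⊆ ME A K0 T := Finset.filter_subset _ _
    have m1 := hT2 T g2
    have m2 := hT3 T g3
    have m3 := hT4 T g4
    have m4 : G ^ 2 / 4 * ∑ e ∈ ME A K0 T \ Bd, κ ^ e.primeFactors.card / (e : ℝ) ≤
        ∑ e ∈ ME A K0 T \ Bd, u ^ e.primeFactors.card *
          (2 ^ e.primeFactors.card / (e : ℝ)) * (AE z (wT A T) T e) ^ 2 := by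
      rw [Finset.mul_sum]
      refine Finset.sum_le_sum fun e hee => ?_
      rw [Finset.mem_sdiff] at hee
      have m5 := hT1 T g1 e hee.1 hee.2
      rw [← hG] at m5
      have m6 : (G / (2 * 2 ^ e.primeFactors.card)) ^ 2 ≤ (AE z (wT A T) T e) ^ 2 :=
        pow_le_pow_left₀ (by positivity) m5 2
      have m7 : G ^ 2 / 4 * (κ ^ e.primeFactors.card / (e : ℝ)) = u ^ e.primeFactors.card *
          (2 ^ e.primeFactors.card / (e : ℝ)) * (G / (2 * 2 ^ e.primeFactors.card)) ^ 2 := by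
        rw [hκ, div_pow u 2]
        have h2 : (2 : ℝ) ^ e.primeFactors.card ≠ 0 := by positivity
        rcases eq_or_ne (e : ℝ) 0 with h0 | h0
        · rw [h0]; simp
        · field_simp
          ring
      rw [m7]
      exact mul_le_mul_of_nonneg_left m6 (by positivity)
    have m8 : ∑ e ∈ ME A K0 T \ Bd, u ^ e.primeFactors.card *
          (2 ^ e.primeFactors.card / (e : ℝ)) * (AE z (wT A T) T e) ^ 2 ≤
        ∑ e ∈ ME A K0 T, u ^ e.primeFactors.card *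
          (2 ^ e.primeFactors.card / (e : ℝ)) * (AE z (wT A T) T e) ^ 2 :=
      Finset.sum_le_sum_of_subset_of_nonneg Finset.sdiff_subset fun e _ _ => by positivity
    have m9 : ∑ e ∈ ME A K0 T \ Bd, κ ^ e.primeFactors.card / (e : ℝ) =
        ∑ e ∈ ME A K0 T, κ ^ e.primeFactors.card / (e : ℝ) -
          ∑ e ∈ Bd, κ ^ e.primeFactors.card / (e : ℝ) := by
      rw [eq_sub_iff_add_eq]
      exact Finset.sum_sdiff hsub
    have m10 : (Real.log T) ^ κ / (Real.log (Real.log T)) ^ C1 - 1 / Real.log T ≤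
        ∑ e ∈ ME A K0 T \ Bd, κ ^ e.primeFactors.card / (e : ℝ) := by
      rw [m9]
      linarith
    have m11 := mul_le_mul_of_nonneg_left m10 (show 0 ≤ G ^ 2 / 4 by positivity)
    linarith
  obtain ⟨T0, hT0⟩ := eventually_atTop.1 key
  exact ⟨C1 + 2 * C2 + 1, T0, hT0⟩

end Pool.Agent.H514.MX
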