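import Pool.Agent.H514.KS.Ker

/-!
MX-6. The 2-Selmer group of `W` over `ℚ`, defined by cocycles. The file
`Pool/Agent/H514/KS/Ker.lean` (on origin/main; fetch the `Pool.Graph` modules it imports with
`team-store fetch`) contains similar arguments over a number field: `FL_zero`, `del_ker`,
`pt_of_fixed`, `ker_bound`; `Pool/Agent/H514/KS/S2.lean` contains `of_eq`, `mw_bound`;
`Pool/Graph/R_pool_sql_team_seeded_f72693b1/W262/SH/Def.lean` contains `IsS`, `ZS`, `ShaQ`, `Sha2`, `Qt`.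

PROOF of `sel_le`. The map `Sel2 W → ShaQ W`, class of `f` ↦ class of `f`, is an additive map (well
defined: `SelB ≤ B1`), with image in the 2-torsion `Sha2 W`, which is finite. Kernel: if
`f σ = σ Q - Q` for all `σ` (`f ∈ SelZ W`), then `Q + Q` is fixed by `GQ` (as `f σ + f σ = 0`), hence comes
from a point `R ∈ Pt W ℚ` (`pt_of_fixed` of `KS/Ker.lean` with `L = ⊥`, or its proof). Choose `(Q_x, R_x)`
for every `x` in the kernel. If `R_x - R_y = T + T`, `T ∈ Pt W ℚ`, then `U = Q_x - Q_y - T` satisfies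
`U + U = 0` and `f_x - f_y = σ U - U`, so `x = y` in `Sel2 W` (this is `SelB`). So the values `R_x` are
pairwise incongruent modulo `2 Pt W ℚ`, and by `of_eq` of `KS/S2.lean` (with `K = ℚ`) every finite set of
elements of the kernel has at most `4 * 2 ^ rank` elements. (`W.baseChange ℚ = W` to pass between
`Pt W ℚ` and `W.toAffine.Point`.) So the kernel is finite, `Sel2 W` is finite, and
`card Sel2 = card ker * card range`.

PROOF of `sub_le`. The map `V → Sel2 W`, `v ↦` class of `Fv ... v`, is injective: if `Fv v - Fv v'` is in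
`SelB W`, it is `σ T - T` with `T + T = 0`; the 2-torsion is rational (`hR`: `tor_ext`, `sg_act'` as in the
proof of `ker_bound`), so it is `0`, `Fv (v + v') = 0` (`Fv_add`, `Fv_two`), and then `v + v' = 0` because
`Fv w = 0` implies that `uk (fun _ => 0) P 1 w` is fixed by `GQ` (`sg_Fv`, `sg_zero`), so it is in `ℚ` and
`dk (fun _ => 0) P 1 w = ∏ p ^ (w p).val`, a squarefree number, is a square in `ℚ`, so it is `1`, `w = 0`
(compare `FL_zero`).
-/

set_option autoImplicit false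

open scoped Classical

namespace Pool.Agent.H514.MX

open Finset WeierstrassCurve Pool.Agent.W262.SH Pool.Agent.H514.KS

/-- the continuous cocycles of `Gal(ℚ̄/ℚ)` with values in the 2-torsion of `W` that are locally
trivial, as cocycles with values in the points of `W`, at all places of `ℚ` -/
noncomputable def SelZ (W : WeierstrassCurve ℚ) : AddSubgroup (GQ → Pt W QB) where
  carrier := {f | IsS W f ∧ ∀ σ, f σ + f σ = 0}
  zero_mem' := ⟨isS_zero W, fun σ => by simp⟩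
  add_mem' := by
    rintro f g ⟨hf1, hf2⟩ ⟨hg1, hg2⟩
    refine ⟨isS_add W hf1 hg1, fun σ => ?_⟩
    rw [Pi.add_apply, add_add_add_comm, hf2, hg2, add_zero]
  neg_mem' := by
    rintro f ⟨hf1, hf2⟩
    refine ⟨isS_neg W hf1, fun σ => ?_⟩
    rw [Pi.neg_apply, ← neg_add, hf2, neg_zero]

/-- the coboundaries of the points of order two -/
noncomputable def SelB (W : WeierstrassCurve ℚ) : AddSubgroup (GQ → Pt W QB) where
  carrier := {f | ∃ T : Pt W QB, T + T = 0 ∧ ∀ σ, f σ = gact W σ T - T}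
  zero_mem' := ⟨0, by simp, fun σ => by simp⟩
  add_mem' := by
    rintro f g ⟨P, hP1, hP⟩ ⟨Q, hQ1, hQ⟩
    refine ⟨P + Q, by rw [add_add_add_comm, hP1, hQ1, add_zero], fun σ => ?_⟩
    simp only [Pi.add_apply, map_add, hP, hQ]
    abel
  neg_mem' := by
    rintro f ⟨P, hP1, hP⟩
    refine ⟨-P, by rw [← neg_add, hP1, neg_zero], fun σ => ?_⟩
    simp only [Pi.neg_apply, map_neg, hP]
    abel

/-- the 2-Selmer group of `W` over `ℚ`: the kernel of `H¹(ℚ, W[2]) → ∏ H¹(ℚ_v, W)` -/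
abbrev Sel2 (W : WeierstrassCurve ℚ) : Type := Qt (SelZ W) (SelB W)

variable {W : WeierstrassCurve ℚ} {e : Fin 3 → ℤ} {P : Finset ℕ}

/-- the 2-torsion is rational -/
theorem tor_fixed (hR : RR W e) {U : Pt W QB} (hU : U + U = 0) (σ : GQ) : gact W σ U = U := by
  refine Pool.Agent.TH344.SH.tor_ext (hR QB) ?_ hU ?_ ?_
  · rw [← map_add, hU, map_zero]
  · refine (sg_act' W σ.toAlgHom (e 0) U).trans ?_
    rcases Pool.Agent.TH344.SH.sg_sq ((e 0 : ℤ) : QB) U with h | h <;> rw [h]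
    · exact map_one _
    · rw [map_neg, map_one]
  · refine (sg_act' W σ.toAlgHom (e 1) U).trans ?_
    rcases Pool.Agent.TH344.SH.sg_sq ((e 1 : ℤ) : QB) U with h | h <;> rw [h]
    · exact map_one _
    · rw [map_neg, map_one]

/-- a squarefree number -/
theorem dk_ram (hP : ∀ p ∈ P, p.Prime) (v : P → ZMod 2) (q : P) (h : v q ≠ 0) :
    ∃ m : ℤ, ((dk (fun _ => 0) P 1 v : ℕ) : ℤ) = (q : ℕ) * m ∧ ¬ ((q : ℕ) : ℤ) ∣ m := by
  refine ⟨∏ p ∈ Finset.univ.erase q, (((p : ℕ) : ℤ)) ^ (v p).val, ?_, ?_⟩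
  · unfold dk
    push_cast
    rw [← Finset.mul_prod_erase Finset.univ _ (Finset.mem_univ q)]
    have h1 : (v q).val = 1 := by
      revert h
      generalize v q = a
      revert a
      decide
    rw [h1, pow_one]
  · have hqp := hP q q.2
    rw [(Nat.prime_iff_prime_int.1 hqp).dvd_finsetProd_iff]
    rintro ⟨p, hp, h1⟩
    have h2 := (Nat.prime_iff_prime_int.1 hqp).dvd_of_dvd_pow h1
    have h3 : (q : ℕ) ∣ (p : ℕ) := by exact_mod_cast h2
    exact (Finset.mem_erase.1 hp).1 (Subtype.ext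
        ((Nat.prime_dvd_prime_iff_eq hqp (hP p p.2)).1 h3).symm)

theorem Fv_zero_of (hR : RR W e) (hP : ∀ p ∈ P, p.Prime) {v : P → ZMod 2}
    (h : ∀ σ : GQ, Fv W e (fun _ => 0) P v σ = 0) : v = 0 := by
  funext q
  by_contra hv
  obtain ⟨m, hm1, hm2⟩ := dk_ram hP v q hv
  have hqp := hP q q.2
  have hqi := Nat.prime_iff_prime_int.1 hqp
  have hfix : ∀ σ : Gal (KD (Fin.elim0 : Fin 0 → ℤ)), inG (KD (Fin.elim0 : Fin 0 → ℤ)) σ
      (uk (fun _ => 0) P 1 v) = uk (fun _ => 0) P 1 v := by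
    intro σ
    have h1 := sg_Fv (jj := fun _ => 0) (P := P) hR 1 v (inG (KD (Fin.elim0 : Fin 0 → ℤ)) σ)
    rw [h, Pool.Agent.TH344.SH.sg_zero, one_mul] at h1
    exact h1
  obtain ⟨S, z, hz⟩ := kd_sqrt (Fin.elim0 : Fin 0 → ℤ) (fun i => i.elim0) (mem_of_fixed hfix)
    (uk_sq 1 v)
  have hS : S = ∅ := Finset.eq_empty_of_isEmpty S
  rw [hS, Finset.prod_empty, mul_one, hm1] at hz
  have hz1 : ((q : ℕ) : ℤ) ∣ z := by
    have : ((q : ℕ) : ℤ) ∣ z * z := ⟨_, hz.symm⟩
    rcases hqi.dvd_or_dvd this with h1 | h1 <;> exact h1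
  obtain ⟨y, rfl⟩ := hz1
  have hq0 : ((q : ℕ) : ℤ) ≠ 0 := by exact_mod_cast hqp.ne_zero
  have h3 : m = q * (y * y) := by
    apply mul_left_cancel₀ hq0
    rw [hz]
    ring
  exact hm2 ⟨_, h3⟩

/-- a type all of whose finite sets are small -/
theorem fin_of_bound {K : Type} {N : ℕ} (h : ∀ S : Finset K, S.card ≤ N) :
    Finite K ∧ Nat.card K ≤ N := by
  have hfin : Finite K := by
    by_contra hc
    have hi : Infinite K := not_finite_iff_infinite.1 hc
    obtain ⟨S, hS⟩ := Infinite.exists_subset_card_eq K (N + 1)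
    have := h S
    omega
  refine ⟨hfin, ?_⟩
  have := Fintype.ofFinite K
  rw [Nat.card_eq_fintype_card, ← Finset.card_univ]
  exact h _

/-- the rank does not depend on the decidable equality -/
theorem finrank_inst {W1 W2 : WeierstrassCurve.Affine ℚ} (h : W1 = W2) (d1 d2 : DecidableEq ℚ) :
    @Module.finrank ℤ W1.Point _
      (@WeierstrassCurve.Affine.Point.instAddCommGroup ℚ _ W1 d1).toAddCommMonoid
      (@AddCommGroup.toIntModule _ (@WeierstrassCurve.Affine.Point.instAddCommGroup ℚ _ W1 d1)) =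
    @Module.finrank ℤ W2.Point _
      (@WeierstrassCurve.Affine.Point.instAddCommGroup ℚ _ W2 d2).toAddCommMonoid
      (@AddCommGroup.toIntModule _ (@WeierstrassCurve.Affine.Point.instAddCommGroup ℚ _ W2 d2)) := by
  have hd : d1 = d2 := Subsingleton.elim _ _
  subst hd
  subst h
  rfl

/-- the inclusion of the cocycles -/
theorem selZ_le (W : WeierstrassCurve ℚ) : SelZ W ≤ ZS W := fun _ hf => hf.1

/-- the map from the Selmer group to the Tate-Shafarevich group -/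
noncomputable def toSha (W : WeierstrassCurve ℚ) : Sel2 W →+ ShaQ W :=
  QuotientAddGroup.map _ _ (AddSubgroup.inclusion (selZ_le W)) (by
    rintro f ⟨T, -, hT⟩
    exact ⟨T, hT⟩)

theorem toSha_two (W : WeierstrassCurve ℚ) (x : Sel2 W) : toSha W x + toSha W x = 0 := by
  rw [← map_add]
  obtain ⟨f, rfl⟩ := QuotientAddGroup.mk_surjective x
  have h : f + f = 0 := by
    apply Subtype.ext
    funext σ
    exact f.2.2 σ
  have h2 : ((f : SelZ W) : Sel2 W) + (f : Sel2 W) = ((f + f : SelZ W) : Sel2 W) := rfl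
  rw [h2, h]
  exact map_zero _

theorem toSha_ker {W : WeierstrassCurve ℚ} {x : Sel2 W} (hx : toSha W x = 0) :
    ∃ (f : SelZ W) (Q : Pt W QB), (f : Sel2 W) = x ∧ ∀ σ, f.1 σ = gact W σ Q - Q := by
  obtain ⟨f, rfl⟩ := QuotientAddGroup.mk_surjective x
  have h1 : ((AddSubgroup.inclusion (selZ_le W) f : ZS W) : ShaQ W) = 0 := hx
  have h2 := (QuotientAddGroup.eq_zero_iff _).1 h1
  obtain ⟨Q, hQ⟩ := h2
  exact ⟨f, Q, rfl, hQ⟩

theorem sub_le {W : WeierstrassCurve ℚ} {e : Fin 3 → ℤ} (hR : RR W e) {P : Finset ℕ}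
    (hP : ∀ p ∈ P, p.Prime) (V : Submodule (ZMod 2) (P → ZMod 2))
    (hsn : ∀ v ∈ V, IsS W (Fv W e (fun _ => 0) P v)) (hf : Finite (Sel2 W)) :
    Nat.card V ≤ Nat.card (Sel2 W) := by
  obtain ⟨F, hF⟩ : ∃ F : V → SelZ W, ∀ v, (F v).1 = Fv W e (fun _ => 0) P v.1 :=
    ⟨fun v => ⟨Fv W e (fun _ => 0) P v.1, hsn v.1 v.2, fun σ => Fv_two hR v.1 σ⟩, fun _ => rfl⟩
  refine Nat.card_le_card_of_injective (fun v => (F v : Sel2 W)) ?_
  intro v v' hvv
  have h1 : (F v : Sel2 W) = (F v' : Sel2 W) := hvv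
  rw [QuotientAddGroup.eq] at h1
  obtain ⟨T, hT, hTσ⟩ := h1
  have h2 : ∀ σ : GQ, Fv W e (fun _ => 0) P (v.1 + v'.1) σ = 0 := by
    intro σ
    have h3 : -(Fv W e (fun _ => 0) P v.1 σ) + Fv W e (fun _ => 0) P v'.1 σ = gact W σ T - T := by
      rw [← hF v, ← hF v']
      exact hTσ σ
    rw [tor_fixed hR hT, sub_self] at h3
    have h4 := Fv_two (jj := fun _ => 0) hR v.1 σ
    rw [Fv_add hR]
    have h5 : Fv W e (fun _ => 0) P v'.1 σ = Fv W e (fun _ => 0) P v.1 σ :=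
      (neg_add_eq_zero.1 h3).symm
    rw [h5, h4]
  have h6 := Fv_zero_of hR hP h2
  apply Subtype.ext
  funext q
  have h7 := congrFun h6 q
  rw [Pi.add_apply, Pi.zero_apply] at h7
  revert h7
  generalize v.1 q = a
  generalize v'.1 q = b
  revert a b
  decide

/-- the kernel of the map to the Tate-Shafarevich group -/
theorem sel_ker {W : WeierstrassCurve ℚ} {e : Fin 3 → ℤ} (hR : RR W e) {N : ℕ}
    {F : Type} [Field F] [Algebra ℚ F] {φ : F →ₐ[ℚ] QB}
    (hφ1 : ∀ x, φ x ∈ (⊥ : IntermediateField ℚ QB))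
    (hφ2 : ∀ x ∈ (⊥ : IntermediateField ℚ QB), ∃ y, φ y = x)
    (hN : ∀ S : Finset (Pt W F), (∀ P ∈ S, ∀ Q ∈ S, (∃ R, P - Q = R + R) → P = Q) →
      S.card ≤ N) : Finite (toSha W).ker ∧ Nat.card (toSha W).ker ≤ N := by
  have hQ : ∀ x : (toSha W).ker, ∃ (f : SelZ W) (Q : Pt W QB) (R : Pt W F),
      (f : Sel2 W) = x.1 ∧ act W φ R = Q + Q ∧
      ∀ σ, f.1 σ = gact W σ Q - Q := by
    intro x
    obtain ⟨f, Q, hfx, hQ⟩ := toSha_ker x.2
    obtain ⟨R, hR'⟩ := pt_of_fixed W hφ2 (Q := Q + Q) (by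
      intro σ
      have h1 := hQ (inG _ σ)
      have h2 : f.1 (inG _ σ) + f.1 (inG _ σ) = 0 := f.2.2 _
      rw [h1] at h2
      show gact W (inG _ σ) (Q + Q) = Q + Q
      rw [map_add]
      have h3 : gact W (inG _ σ) Q - Q + (gact W (inG _ σ) Q - Q) =
        (gact W (inG _ σ) Q + gact W (inG _ σ) Q) - (Q + Q) := by abel
      rw [h3] at h2
      exact sub_eq_zero.1 h2)
    exact ⟨f, Q, R, hfx, hR', hQ⟩
  choose f Q R hfx hQR hQc using hQ
  have key : ∀ v v' : (toSha W).ker, (∃ T, R v - R v' = T + T) → v = v' := by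
    rintro v v' ⟨T, hT⟩
    obtain ⟨U, hU⟩ : ∃ U, U = Q v - Q v' - act W φ T := ⟨_, rfl⟩
    have hU2 : U + U = 0 := by
      have h1 : act W φ (R v - R v') = act W φ (T + T) := by
        rw [hT]
      rw [map_sub, map_add, hQR, hQR] at h1
      rw [hU]
      have : Q v - Q v' - act W φ T + (Q v - Q v' - act W φ T) =
        (Q v + Q v - (Q v' + Q v')) - (act W φ T +
          act W φ T) := by abel
      rw [this, h1, sub_self]
    have hact : ∀ σ : GQ, gact W σ (act W φ T) =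
        act W φ T := by
      intro σ
      have hσ : σ ∈ fixG (⊥ : IntermediateField ℚ QB) := by
        show σ ∈ IntermediateField.fixingSubgroup _
        rw [IntermediateField.fixingSubgroup_bot]
        exact Subgroup.mem_top σ
      exact incL_act W hφ1 T (⟨σ, hσ⟩ : Gal (⊥ : IntermediateField ℚ QB))
    have hdiff : f v = f v' := by
      apply Subtype.ext
      funext σ
      rw [hQc, hQc]
      have h1 : Q v = Q v' + act W φ T + U := by rw [hU]; abel
      rw [h1, map_add, map_add, hact, tor_fixed hR hU2]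
      abel
    apply Subtype.ext
    rw [← hfx v, ← hfx v', hdiff]
  have hinj : Function.Injective R := fun v v' h => key v v' ⟨0, by rw [h, sub_self, add_zero]⟩
  refine fin_of_bound fun S => ?_
  rw [← Finset.card_image_of_injective _ hinj]
  apply hN
  intro P hP Q' hQ' hPQ
  rw [Finset.mem_image] at hP hQ'
  obtain ⟨v, -, rfl⟩ := hP
  obtain ⟨v', -, rfl⟩ := hQ'
  rw [key v v' hPQ]

theorem sel_le {A B : ℤ} (hAB : 4 * A ^ 3 + 27 * B ^ 2 ≠ 0) {e : Fin 3 → ℤ}
    (hR : RR (⟨0, 0, 0, (A : ℚ), (B : ℚ)⟩ : WeierstrassCurve ℚ) e)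
    (hf : Finite (Sha2 (⟨0, 0, 0, (A : ℚ), (B : ℚ)⟩ : WeierstrassCurve ℚ))) :
    Finite (Sel2 (⟨0, 0, 0, (A : ℚ), (B : ℚ)⟩ : WeierstrassCurve ℚ)) ∧
    Nat.card (Sel2 (⟨0, 0, 0, (A : ℚ), (B : ℚ)⟩ : WeierstrassCurve ℚ)) ≤
      4 * 2 ^ Module.finrank ℤ
        (⟨0, 0, 0, (A : ℚ), (B : ℚ)⟩ : WeierstrassCurve ℚ).toAffine.Point *
      Nat.card (Sha2 (⟨0, 0, 0, (A : ℚ), (B : ℚ)⟩ : WeierstrassCurve ℚ)) := by
  obtain ⟨W, hW⟩ : ∃ W : WeierstrassCurve ℚ, W = ⟨0, 0, 0, (A : ℚ), (B : ℚ)⟩ := ⟨_, rfl⟩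
  rw [← hW] at hR hf ⊢
  -- the base change to `ℚ`
  have hbc : W.baseChange ℚ = W := by
    rw [hW]
    apply WeierstrassCurve.ext <;> rfl
  have hcrv : Pool.Agent.H925R3.DC.crv ℚ (A : ℚ) (B : ℚ) = (W.baseChange ℚ).toAffine := by
    rw [hbc, hW]
    rfl
  have hφ1 : ∀ x : ℚ, Algebra.ofId ℚ QB x ∈ (⊥ : IntermediateField ℚ QB) := fun x =>
    IntermediateField.mem_bot.2 ⟨x, rfl⟩
  have hφ2 : ∀ x ∈ (⊥ : IntermediateField ℚ QB), ∃ y, Algebra.ofId ℚ QB y = x := fun x hx =>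
    IntermediateField.mem_bot.1 hx
  have hker := sel_ker hR hφ1 hφ2 (N := 4 * 2 ^ Module.finrank ℤ W.toAffine.Point) (by
      intro S hS
      have hfr := finrank_inst (W1 := (W.baseChange ℚ).toAffine) (W2 := W.toAffine) (by rw [hbc])
        (fun a b => Classical.propDecidable (a = b)) instDecidableEqRat
      refine (@of_eq ℚ _ _ (fun a b => Classical.propDecidable (a = b)) A B hAB _ hcrv
        S ?_).trans_eq (congrArg (fun n => 4 * 2 ^ n) hfr)
      rintro P hP Q' hQ' ⟨T, hT⟩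
      refine hS P hP Q' hQ' ⟨T, ?_⟩
      exact hT.trans (add_inst _ _ _ T))
  obtain ⟨hkf, hkc⟩ := hker
  -- the range
  have hrange : Finite (toSha W).range ∧ Nat.card (toSha W).range ≤ Nat.card (Sha2 W) := by
    have hinj2 : Function.Injective (fun y : (toSha W).range => (⟨y.1, by
        obtain ⟨x, hx⟩ := y.2
        rw [← hx]
        exact toSha_two W x⟩ : Sha2 W)) := by
      intro y y' h
      apply Subtype.ext
      have h' := congrArg (fun z : Sha2 W => z.1) h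
      exact h'
    exact ⟨Finite.of_injective _ hinj2, Nat.card_le_card_of_injective _ hinj2⟩
  obtain ⟨hrf, hrc⟩ := hrange
  have eq1 : Sel2 W ≃ (Sel2 W ⧸ (toSha W).ker) × (toSha W).ker :=
    AddSubgroup.addGroupEquivQuotientProdAddSubgroup
  have eq2 : (Sel2 W ⧸ (toSha W).ker) ≃ (toSha W).range :=
    (QuotientAddGroup.quotientKerEquivRange (toSha W)).toEquiv
  have hqf : Finite (Sel2 W ⧸ (toSha W).ker) := Finite.of_equiv _ eq2.symm
  refine ⟨Finite.of_equiv _ eq1.symm, ?_⟩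
  rw [Nat.card_congr eq1, Nat.card_prod, Nat.card_congr eq2, mul_comm]
  exact Nat.mul_le_mul hkc hrc

end Pool.Agent.H514.MX
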